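import Pool.Agent.W5h42.KW.Top
import Pool.Agent.TH784.KE.One

/-!
# Complex functions and weights; replacing functions by their conditional expectations
-/

set_option autoImplicit false
set_option linter.unusedSectionVars false

open MeasureTheory Filter Topology

noncomputable section

namespace Pool.Agent.W5h42.KW

open Pool.Agent.TH784.KE
open Pool.Agent.W761.Box (BM)

section gen

variable {X : Type*} {mX : MeasurableSpace X} {μ : Measure X} [IsProbabilityMeasure μ]

/-- Complex processes whose averages tend to zero with all bounded deterministic weights. -/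
def WWC (μ : Measure X) (P : ℕ → X → ℂ) : Prop :=
  ∀ᵐ x ∂μ, ∀ w : ℕ → ℂ, (∃ C : ℝ, ∀ n, ‖w n‖ ≤ C) → Det w →
    Tendsto (fun N : ℕ => (∑ n ∈ Finset.range N, w n * P n x) / N) atTop (𝓝 0)

theorem WW.toC {P : ℕ → X → ℝ} (h : WW μ P) : WWC μ fun n x => (P n x : ℂ) := by
  filter_upwards [h] with x hx w hw hdet
  obtain ⟨C₀, hC₀⟩ := hw
  set C : ℝ := |C₀| + 1 with hC
  have hC1 : 1 ≤ C := by
    have := abs_nonneg C₀
    linarith
  have hC0 : 0 < C := by linarith
  have hCb : ∀ n, ‖w n‖ ≤ C := fun n =>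
    (hC₀ n).trans ((le_abs_self _).trans (by rw [hC]; linarith))
  have h1 := hx (fun n => (w n).re / C) (fun n => by
    rw [abs_div, abs_of_pos hC0, div_le_one hC0]
    exact (Complex.abs_re_le_norm _).trans (hCb n))
    (hdet.map (g := fun z : ℂ => z.re / C) (fun y z => by
      rw [← sub_div, ← Complex.sub_re, norm_div, Real.norm_eq_abs, Real.norm_of_nonneg hC0.le]
      exact (div_le_self (abs_nonneg _) hC1).trans (Complex.abs_re_le_norm _)))
  have h2 := hx (fun n => (w n).im / C) (fun n => by
    rw [abs_div, abs_of_pos hC0, div_le_one hC0]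
    exact (Complex.abs_im_le_norm _).trans (hCb n))
    (hdet.map (g := fun z : ℂ => z.im / C) (fun y z => by
      rw [← sub_div, ← Complex.sub_im, norm_div, Real.norm_eq_abs, Real.norm_of_nonneg hC0.le]
      exact (div_le_self (abs_nonneg _) hC1).trans (Complex.abs_im_le_norm _)))
  have h3 := ((Complex.continuous_ofReal.tendsto _).comp h1).const_mul (C : ℂ)
  have h4 := ((Complex.continuous_ofReal.tendsto _).comp h2).const_mul ((C : ℂ) * Complex.I)
  have h5 := h3.add h4
  simp only [Complex.ofReal_zero, mul_zero, add_zero] at h5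
  refine h5.congr fun N => ?_
  simp only [Function.comp_apply]
  push_cast
  rw [mul_div_assoc', mul_div_assoc', ← add_div, Finset.mul_sum, Finset.mul_sum,
    ← Finset.sum_add_distrib]
  congr 1
  refine Finset.sum_congr rfl fun n _ => ?_
  have e : w n = ((w n).re : ℂ) + (w n).im * Complex.I := (Complex.re_add_im _).symm
  have hC' : (C : ℂ) ≠ 0 := by exact_mod_cast hC0.ne'
  conv_rhs => rw [e]
  field_simp

omit [IsProbabilityMeasure μ] in
theorem WWC.sum {ι : Type*} (s : Finset ι) {P : ι → ℕ → X → ℂ} (h : ∀ i ∈ s, WWC μ (P i)) :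
    WWC μ fun n x => ∑ i ∈ s, P i n x := by
  have h1 : ∀ᵐ x ∂μ, ∀ i ∈ s, ∀ w : ℕ → ℂ, (∃ C : ℝ, ∀ n, ‖w n‖ ≤ C) → Det w →
      Tendsto (fun N : ℕ => (∑ n ∈ Finset.range N, w n * P i n x) / N) atTop (𝓝 0) := by
    rw [Filter.eventually_all_finset]
    exact h
  filter_upwards [h1] with x hx w hw hdet
  have h2 := tendsto_finsetSum s fun i hi => hx i hi w hw hdet
  rw [Finset.sum_const_zero] at h2
  refine h2.congr fun N => ?_
  rw [← Finset.sum_div, Finset.sum_comm]
  congr 1
  refine Finset.sum_congr rfl fun n _ => ?_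
  rw [Finset.mul_sum]

omit [IsProbabilityMeasure μ] in
theorem WWC.smul {P : ℕ → X → ℂ} (h : WWC μ P) (c : ℂ) : WWC μ fun n x => c * P n x := by
  filter_upwards [h] with x hx w hw hdet
  have h1 := (hx w hw hdet).const_mul c
  rw [mul_zero] at h1
  refine h1.congr fun N => ?_
  rw [mul_div_assoc', Finset.mul_sum]
  congr 1
  refine Finset.sum_congr rfl fun n _ => ?_
  ring

omit [IsProbabilityMeasure μ] in
theorem WWC.congr {P Q : ℕ → X → ℂ} (h : WWC μ P) (hPQ : ∀ n x, P n x = Q n x) : WWC μ Q := by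
  have : P = Q := by
    funext n x
    exact hPQ n x
  rwa [← this]

/-- the expansion of a product of complex functions -/
theorem prod_expand {J : Type*} [Fintype J] [DecidableEq J] (c : J → ℂ) (a b : J → ℝ) :
    ∏ j, (c j * ((a j : ℂ) + (b j : ℂ) * Complex.I)) =
      ∑ τ ∈ (Finset.univ : Finset J).powerset, ((∏ j, c j) * Complex.I ^ (Finset.univ \ τ).card) *
        ((∏ j, if j ∈ τ then a j else b j : ℝ) : ℂ) := by
  rw [Finset.prod_mul_distrib, Finset.prod_add, Finset.mul_sum]
  refine Finset.sum_congr rfl fun τ _ => ?_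
  rw [Finset.prod_mul_distrib, Finset.prod_const]
  have e : (∏ j, if j ∈ τ then a j else b j : ℝ) = (∏ j ∈ τ, a j) * ∏ j ∈ Finset.univ \ τ, b j := by
    rw [← Finset.prod_mul_prod_compl τ, ← Finset.compl_eq_univ_sdiff]
    congr 1
    · refine Finset.prod_congr rfl fun j hj => ?_
      rw [if_pos hj]
    · refine Finset.prod_congr rfl fun j hj => ?_
      rw [if_neg (Finset.mem_compl.1 hj)]
  rw [e]
  push_cast
  ring

end gen

variable {X : Type*} {mA mY mX : MeasurableSpace X} {μ : Measure X} [IsProbabilityMeasure μ]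
variable {G : Type*} [Group G]
variable {Φ : G →* Equiv.Perm X} {ℓ : G → ℝ}
variable {J : Type*} [DecidableEq J] [Fintype J]

theorem ww_all (hK : KExt μ mA mY Φ ℓ) {s₀ : G} (hs₀ : 0 < ℓ s₀) {V : Finset J} {v : J}
    (hv : v ∈ V) {p : ℕ → J → G} {c : ℝ} {n₀ : ℕ} (hc : 0 < c)
    (hp : Steps (fun m => ℓ (p m v)) c n₀)
    (hdiff : ∀ w ∈ V, w ≠ v → Tendsto (fun n => ℓ (p n v) - ℓ (p n w)) atTop atTop)
    (hgood : ∀ w ∈ V, Good μ fun n => (Φ (p n w) : X → X))
    {F : J → X → ℝ} (hF : ∀ w ∈ V, Measurable (F w)) (hFY : ∀ w ∉ V, Measurable[mY] (F w))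
    (hFb : ∀ w x, |F w x| ≤ 1) (hVan : Van μ mY (F v)) :
    WW μ fun n x => ∏ j, F j (Φ (p n j) x) := by
  have h := ww_real hK hs₀ hv hc hp hdiff hgood hF (fun w _ => hFb w) hVan
    (W := fun n x => ∏ j ∈ Vᶜ, F j (Φ (p n j) x)) (fun n =>
      ⟨Finset.measurable_fun_prod _ fun j hj =>
        (hFY j (Finset.mem_compl.1 hj)).comp (hK.base.inv _), fun x => by
        rw [Finset.abs_prod]
        exact Finset.prod_le_one (fun _ _ => abs_nonneg _) fun j _ => hFb j _⟩)
  have e : (fun (n : ℕ) (x : X) => ∏ j, F j (Φ (p n j) x)) = fun n x =>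
      (∏ w ∈ V, F w (Φ (p n w) x)) * ∏ j ∈ Vᶜ, F j (Φ (p n j) x) := by
    funext n x
    rw [Finset.prod_mul_prod_compl]
  rw [e]
  exact h

/-- **Products of complex functions with a highest slot of vanishing expectation on the base.** -/
theorem wwc_all (hK : KExt μ mA mY Φ ℓ) {s₀ : G} (hs₀ : 0 < ℓ s₀) {V : Finset J} {v : J}
    (hv : v ∈ V) {p : ℕ → J → G} {c : ℝ} {n₀ : ℕ} (hc : 0 < c)
    (hp : Steps (fun m => ℓ (p m v)) c n₀)
    (hdiff : ∀ w ∈ V, w ≠ v → Tendsto (fun n => ℓ (p n v) - ℓ (p n w)) atTop atTop)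
    (hgood : ∀ w ∈ V, Good μ fun n => (Φ (p n w) : X → X))
    {F : J → X → ℂ} (hF : ∀ w, @BM X mX (F w)) (hFY : ∀ w ∉ V, Measurable[mY] (F w))
    (hVan : ∀ B : Set X, MeasurableSet[mY] B → ∫ x in B, F v x ∂μ = 0) :
    WWC μ fun n x => ∏ j, F j (Φ (p n j) x) := by
  classical
  choose hFm C₀ hC₀ using hF
  let C : J → ℝ := fun j => |C₀ j| + 1
  have hCpos : ∀ j, 0 < C j := fun j => by
    have := abs_nonneg (C₀ j)
    simp only [C]
    linarith
  have hCb : ∀ j x, ‖F j x‖ ≤ C j := fun j x =>
    ((hC₀ j x).trans (le_abs_self _)).trans (by simp only [C]; linarith)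
  let a : J → X → ℝ := fun j x => (F j x).re / C j
  let b : J → X → ℝ := fun j x => (F j x).im / C j
  have ha : ∀ j x, |a j x| ≤ 1 := by
    intro j x
    show |(F j x).re / C j| ≤ 1
    rw [abs_div, abs_of_pos (hCpos j), div_le_one (hCpos j)]
    exact (Complex.abs_re_le_norm _).trans (hCb j x)
  have hb : ∀ j x, |b j x| ≤ 1 := by
    intro j x
    show |(F j x).im / C j| ≤ 1
    rw [abs_div, abs_of_pos (hCpos j), div_le_one (hCpos j)]
    exact (Complex.abs_im_le_norm _).trans (hCb j x)
  have hdec : ∀ j x, F j x = (C j : ℂ) * ((a j x : ℂ) + (b j x : ℂ) * Complex.I) := by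
    intro j x
    have hC' : (C j : ℂ) ≠ 0 := by exact_mod_cast (hCpos j).ne'
    simp only [a, b]
    push_cast
    field_simp
    exact (Complex.re_add_im (F j x)).symm
  have hFi : Integrable (F v) μ := Integrable.of_bound (hFm v).aestronglyMeasurable (C v)
    (Eventually.of_forall (hCb v))
  have hVa : Van μ mY (a v) := by
    intro B hB
    have h4 := hVan B hB
    have h5 : ∫ x in B, a v x ∂μ = (∫ x in B, F v x ∂μ).re / C v := by
      simp only [a]
      rw [integral_div]
      congr 1
      exact integral_re hFi.integrableOn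
    rw [h5, h4]
    simp
  have hVb : Van μ mY (b v) := by
    intro B hB
    have h4 := hVan B hB
    have h5 : ∫ x in B, b v x ∂μ = (∫ x in B, F v x ∂μ).im / C v := by
      simp only [b]
      rw [integral_div]
      congr 1
      exact integral_im hFi.integrableOn
    rw [h5, h4]
    simp
  have key : ∀ τ : Finset J, WW μ fun n x => ∏ j, (if j ∈ τ then a j else b j) (Φ (p n j) x) := by
    intro τ
    refine ww_all hK hs₀ hv hc hp hdiff hgood (F := fun j => if j ∈ τ then a j else b j)
      ?_ ?_ ?_ ?_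
    · intro w _
      by_cases h : w ∈ τ
      · simp only [h, if_true]
        exact (Complex.measurable_re.comp (hFm w)).div_const _
      · simp only [h, if_false]
        exact (Complex.measurable_im.comp (hFm w)).div_const _
    · intro w hw
      by_cases h : w ∈ τ
      · simp only [h, if_true]
        exact (Complex.measurable_re.comp (hFY w hw)).div_const _
      · simp only [h, if_false]
        exact (Complex.measurable_im.comp (hFY w hw)).div_const _
    · intro w x
      by_cases h : w ∈ τ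
      · simp only [h, if_true]
        exact ha w x
      · simp only [h, if_false]
        exact hb w x
    · by_cases h : v ∈ τ
      · simp only [h, if_true]
        exact hVa
      · simp only [h, if_false]
        exact hVb
  have hsum := WWC.sum (μ := μ) (Finset.univ : Finset J).powerset (P := fun τ n x =>
    ((∏ j, (C j : ℂ)) * Complex.I ^ (Finset.univ \ τ).card) *
      ((∏ j, (if j ∈ τ then a j else b j) (Φ (p n j) x) : ℝ) : ℂ))
    fun τ _ => (key τ).toC.smul _
  refine hsum.congr fun n x => ?_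
  have h1 := prod_expand (fun j => (C j : ℂ)) (fun j => a j (Φ (p n j) x))
    (fun j => b j (Φ (p n j) x))
  have h2 : ∏ j, F j (Φ (p n j) x) = ∏ j, ((C j : ℂ) * ((a j (Φ (p n j) x) : ℂ) +
      (b j (Φ (p n j) x) : ℂ) * Complex.I)) := Finset.prod_congr rfl fun j _ => hdec j _
  rw [h2, h1]
  refine Finset.sum_congr rfl fun τ _ => ?_
  congr 2
  refine Finset.prod_congr rfl fun j _ => ?_
  by_cases h : j ∈ τ
  · simp only [h, if_true]
  · simp only [h, if_false]

/-- levels of the sequences in `S`: eventually monotone with steps bounded from below, with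
differences tending to infinity; the sequences outside `S` are much lower -/
structure Lev (ℓ : G → ℝ) (p : ℕ → J → G) (S : Finset J) : Prop where
  steps : ∀ v ∈ S, ∃ (c : ℝ) (n₀ : ℕ), 0 < c ∧ Steps (fun m => ℓ (p m v)) c n₀
  diff : ∀ v ∈ S, ∀ w ∈ S, v ≠ w → Tendsto (fun n => ℓ (p n v) - ℓ (p n w)) atTop atTop ∨
    Tendsto (fun n => ℓ (p n w) - ℓ (p n v)) atTop atTop
  low : ∀ v ∈ S, ∀ w ∉ S, Tendsto (fun n => ℓ (p n v) - ℓ (p n w)) atTop atTop

theorem Lev.exists_top {p : ℕ → J → G} {S : Finset J} (h : Lev ℓ p S) {t : Finset J}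
    (ht : t ⊆ S) (hne : t.Nonempty) :
    ∃ v ∈ t, ∀ w ∈ t ∪ Sᶜ, w ≠ v → Tendsto (fun n => ℓ (p n v) - ℓ (p n w)) atTop atTop := by
  classical
  have key : ∀ t : Finset J, t ⊆ S → t.Nonempty →
      ∃ v ∈ t, ∀ w ∈ t, w ≠ v → Tendsto (fun n => ℓ (p n v) - ℓ (p n w)) atTop atTop := by
    intro t
    induction t using Finset.induction_on with
    | empty => intro _ hne; exact absurd hne Finset.not_nonempty_empty
    | insert a s ha ih =>
      intro hs _
      have haS : a ∈ S := hs (Finset.mem_insert_self a s)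
      have hsS : s ⊆ S := (Finset.subset_insert a s).trans hs
      rcases s.eq_empty_or_nonempty with h0 | h0
      · subst h0
        refine ⟨a, Finset.mem_insert_self _ _, fun w hw hwa => ?_⟩
        rw [Finset.mem_insert] at hw
        rcases hw with hw | hw
        · exact absurd hw hwa
        · exact absurd hw (Finset.notMem_empty w)
      · obtain ⟨v, hv, hvt⟩ := ih hsS h0
        have hav : a ≠ v := fun e => ha (e ▸ hv)
        rcases h.diff a haS v (hsS hv) hav with h1 | h1
        · refine ⟨a, Finset.mem_insert_self _ _, fun w hw hwa => ?_⟩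
          rw [Finset.mem_insert] at hw
          rcases hw with hw | hw
          · exact absurd hw hwa
          · by_cases hwv : w = v
            · subst hwv
              exact h1
            · have h2 := h1.atTop_add_atTop (hvt w hw hwv)
              refine h2.congr fun n => ?_
              ring
        · refine ⟨v, Finset.mem_insert_of_mem hv, fun w hw hwv => ?_⟩
          rw [Finset.mem_insert] at hw
          rcases hw with hw | hw
          · subst hw
            exact h1
          · exact hvt w hw hwv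
  obtain ⟨v, hv, hvt⟩ := key t ht hne
  refine ⟨v, hv, fun w hw hwv => ?_⟩
  rcases Finset.mem_union.1 hw with hw | hw
  · exact hvt w hw hwv
  · exact h.low v (ht hv) w (Finset.mem_compl.1 hw)

/-- **The base is characteristic, with all deterministic weights at once (one-sided).** -/
theorem wwc_char (hK : KExt μ mA mY Φ ℓ) {s₀ : G} (hs₀ : 0 < ℓ s₀) {p : ℕ → J → G}
    {S : Finset J} (hlev : Lev ℓ p S) (hgood : ∀ w, Good μ fun n => (Φ (p n w) : X → X))
    {f e : J → X → ℂ} (hf : ∀ j, @BM X mX (f j)) (he : ∀ j ∈ S, @BM X mX (e j))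
    (heY : ∀ j ∈ S, Measurable[mY] (e j)) (hef : ∀ j ∉ S, e j = f j)
    (hfe : ∀ j ∈ S, ∀ B : Set X, MeasurableSet[mY] B → ∫ x in B, (f j x - e j x) ∂μ = 0) :
    WWC μ fun n x => (∏ j, f j (Φ (p n j) x) - ∏ j, e j (Φ (p n j) x)) := by
  classical
  have key : ∀ t ∈ S.powerset.erase ∅, WWC μ fun n x =>
      ∏ j, (if j ∈ t then (fun y => f j y - e j y) else e j) (Φ (p n j) x) := by
    intro t ht
    obtain ⟨hne, htS⟩ := Finset.mem_erase.1 ht
    rw [Finset.mem_powerset] at htS
    obtain ⟨v, hv, hvt⟩ := hlev.exists_top htS (Finset.nonempty_of_ne_empty hne)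
    obtain ⟨c, n₀, hc, hst⟩ := hlev.steps v (htS hv)
    have hBM : ∀ j, @BM X mX (e j) := by
      intro j
      by_cases hj : j ∈ S
      · exact he j hj
      · rw [hef j hj]
        exact hf j
    refine wwc_all hK hs₀ (V := t ∪ Sᶜ) (Finset.mem_union_left _ hv) hc hst hvt
      (fun w _ => hgood w) (F := fun j => if j ∈ t then (fun y => f j y - e j y) else e j) ?_ ?_ ?_
    · intro w
      by_cases hw : w ∈ t
      · simp only [hw, if_true]
        obtain ⟨m₁, C₁, b₁⟩ := hf w
        obtain ⟨m₂, C₂, b₂⟩ := hBM w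
        exact ⟨m₁.sub m₂, C₁ + C₂, fun x => (norm_sub_le _ _).trans (add_le_add (b₁ x) (b₂ x))⟩
      · simp only [hw, if_false]
        exact hBM w
    · intro w hw
      have hwt : w ∉ t := fun h => hw (Finset.mem_union_left _ h)
      have hwS : w ∈ S := by
        by_contra h
        exact hw (Finset.mem_union_right _ (Finset.mem_compl.2 h))
      simp only [hwt, if_false]
      exact heY w hwS
    · simp only [hv, if_true]
      exact hfe v (htS hv)
  refine (WWC.sum _ key).congr fun n x => ?_
  have h1 := Finset.prod_add (fun j => f j (Φ (p n j) x) - e j (Φ (p n j) x))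
    (fun j => e j (Φ (p n j) x)) (Finset.univ : Finset J)
  have h2 : ∏ j, (f j (Φ (p n j) x) - e j (Φ (p n j) x) + e j (Φ (p n j) x)) =
      ∏ j, f j (Φ (p n j) x) := Finset.prod_congr rfl fun j _ => by ring
  have h3 : ∀ t : Finset J, (∏ j ∈ t, (f j (Φ (p n j) x) - e j (Φ (p n j) x))) *
      ∏ j ∈ Finset.univ \ t, e j (Φ (p n j) x) =
      ∏ j, (if j ∈ t then (fun y => f j y - e j y) else e j) (Φ (p n j) x) := by
    intro t
    rw [← Finset.prod_mul_prod_compl t, ← Finset.compl_eq_univ_sdiff]
    congr 1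
    · refine Finset.prod_congr rfl fun j hj => ?_
      rw [if_pos hj]
    · refine Finset.prod_congr rfl fun j hj => ?_
      rw [if_neg (Finset.mem_compl.1 hj)]
  rw [h2, Finset.sum_congr rfl fun t _ => h3 t] at h1
  rw [h1, ← Finset.sum_subset (Finset.powerset_mono.2 (Finset.subset_univ S)),
    ← Finset.add_sum_erase _ _ (Finset.empty_mem_powerset S)]
  · simp
  · intro t _ ht
    rw [Finset.mem_powerset] at ht
    obtain ⟨j, hj, hjS⟩ := Finset.not_subset.1 ht
    refine Finset.prod_eq_zero (Finset.mem_univ j) ?_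
    rw [if_pos hj, hef j hjS, sub_self]

end Pool.Agent.W5h42.KW
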