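import Mathlib

/-!
# Deterministic sequences, entropy zero, almost everywhere convergence along a sequence of maps
-/

set_option autoImplicit false

open MeasureTheory Filter Topology

noncomputable section

namespace Pool.Agent.W5h42.KW

/-- A sequence is *deterministic* if for every `ε > 0` it is, up to an error of at most `ε` in
the mean, a concatenation of words of some length `L` from a list of at most `exp (ε L)` words
(only the first `L` letters of each word `W i` are used). -/
def Det {E : Type*} [NormedAddCommGroup E] (w : ℕ → E) : Prop :=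
  ∀ ε : ℝ, 0 < ε → ∃ L M : ℕ, 0 < L ∧ (M : ℝ) ≤ Real.exp (ε * L) ∧
    ∃ (W : Fin M → ℕ → E) (c : ℕ → Fin M), ∀ᶠ N : ℕ in atTop,
      ∑ n ∈ Finset.range N, ‖w n - W (c (n / L)) (n % L)‖ ≤ ε * N

/-- a two-sided sequence both halves of which are deterministic -/
def Deterministic (w : ℤ → ℂ) : Prop :=
  Det (fun n : ℕ => w n) ∧ Det (fun n : ℕ => w (-(n : ℤ)))

/-- the name of length `n` of `x` -/
def nm {X : Type*} {r : ℕ} (T : X → X) (α : X → Fin r) (n : ℕ) (x : X) : Fin n → Fin r :=
  fun i => α (T^[i] x)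

/-- the entropy of the partition into names of length `n` -/
def Hn {X : Type*} {mX : MeasurableSpace X} (μ : Measure X) {r : ℕ} (T : X → X) (α : X → Fin r)
    (n : ℕ) : ℝ :=
  ∑ w : Fin n → Fin r, Real.negMulLog (μ.real (nm T α n ⁻¹' {w}))

/-- zero Kolmogorov-Sinai entropy: `(1/n) H(α ∨ T⁻¹α ∨ ... ∨ T⁻ⁿ⁺¹α) → 0` for all finite
measurable partitions `α` -/
def ZeroEntropy {X : Type*} {mX : MeasurableSpace X} (μ : Measure X) (T : X → X) : Prop :=
  ∀ (r : ℕ) (α : X → Fin r), Measurable α →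
    Tendsto (fun n : ℕ => Hn μ T α n / n) atTop (𝓝 0)

/-- For every bounded measurable `h` the averages of `h (φ n x)` over `0 ≤ n < N` and over
`-N < n ≤ 0` converge for almost every `x`. -/
def AEConv {X : Type*} {mX : MeasurableSpace X} (μ : Measure X) (φ : ℤ → X → X) : Prop :=
  ∀ h : X → ℝ, Measurable h → (∃ C : ℝ, ∀ x, |h x| ≤ C) → ∀ᵐ x ∂μ,
    (∃ L : ℝ, Tendsto (fun N : ℕ => (∑ n ∈ Finset.range N, h (φ n x)) / N) atTop (𝓝 L)) ∧
    (∃ L : ℝ, Tendsto (fun N : ℕ => (∑ n ∈ Finset.range N, h (φ (-(n : ℤ)) x)) / N) atTop (𝓝 L))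

end Pool.Agent.W5h42.KW
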