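import Pool.Agent.W5h42.KW.Poly

/-!
# All deterministic weights at once; maps of zero entropy next to Kolmogorov extensions

A group `G` acts by measure preserving bijections `Φ g` of a probability space `(X, μ)` and
`ℓ : G → ℝ` is a homomorphism. `𝒴 ⊆ 𝒜` are sub-`σ`-algebras, `𝒴` is invariant, and

* `(Φ g)⁻¹ 𝒜 ⊆ 𝒜` whenever `ℓ g ≤ 0`,
* the `(Φ g)⁻¹ 𝒜`, `g ∈ G`, generate all measurable sets modulo `μ`,
* the intersection of the `(Φ g)⁻¹ 𝒜`, `g ∈ G`, is contained in `𝒴` modulo `μ`,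

that is, the action is a Kolmogorov extension of its factor `𝒴`. Nothing is assumed about `𝒴` and
`G` need not be commutative or nilpotent.

`q_1, ..., q_m : ℤ → G` are sequences whose levels `ℓ (q_j n) = λ_j(n)` are polynomials; for
`q_j(n) = T_1^(P_1j n) ... T_d^(P_dj n)` one has `λ_j = ∑_i ℓ(T_i) P_ij`. Either `q_j(n) = b_j^n`,
or the averages of single bounded functions along `q_j` converge almost everywhere.

`S` is a set of slots `j` such that the `λ_j`, `j ∈ S`, and their differences are not constant; the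
levels of the slots outside `S` are much lower than those of the slots in `S`, in both directions
(for instance `λ_j` has positive even degree and positive leading coefficient for `j ∈ S` and is
zero for `j ∉ S`; or `S` is the set of all slots, in which case there is no such condition).
-/

set_option autoImplicit false

open Filter Topology MeasureTheory
open scoped ENNReal

namespace Pool.Agent.W5h42.KW.DetW

open Pool.Agent.W5h42.KW
open Pool.Agent.W761.Gauss (BM_of_memLp)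

open Classical in
/-- (1) For almost every `x`, for ALL bounded deterministic sequences `w` the averages over
`|n| ≤ N` of `w_n (∏_j f_j(q_j(n) x) - ∏_(j ∈ S) E(f_j|𝒴)(q_j(n) x) ∏_(j ∉ S) f_j(q_j(n) x))`
tend to zero. (2) The same for the weights `w_n = ∏_i g_i(R_i^n x)`, where the `R_i` are
invertible measure preserving maps of zero entropy, with no relation to `G` or to each other. -/
theorem result (m : ℕ) {X G : Type} [Group G] (𝒜 𝒴 : MeasurableSpace X) [mX : MeasurableSpace X]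
    (μ : Measure X) [IsProbabilityMeasure μ] (Φ : G →* Equiv.Perm X)
    (hΦ : ∀ g, MeasurePreserving (Φ g) μ μ)
    (ℓ : G → ℝ) (hℓ : ∀ g h, ℓ (g * h) = ℓ g + ℓ h)
    (h𝒜 : 𝒜 ≤ mX) (h𝒴 : 𝒴 ≤ 𝒜) (hinv : ∀ g, Measurable[𝒴, 𝒴] (Φ g : X → X))
    (hmono : ∀ g, ℓ g ≤ 0 → 𝒜.comap (Φ g : X → X) ≤ 𝒜)
    (hgen : ∀ B, MeasurableSet[mX] B →
      ∃ B', MeasurableSet[⨆ g, 𝒜.comap (Φ g : X → X)] B' ∧ B =ᵐ[μ] B')
    (htail : ∀ B, (∀ g, MeasurableSet[𝒜.comap (Φ g : X → X)] B) →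
      ∃ B', MeasurableSet[𝒴] B' ∧ B =ᵐ[μ] B')
    (q : Fin m → ℤ → G) (lam : Fin m → Polynomial ℝ)
    (hlam : ∀ j (n : ℤ), ℓ (q j n) = (lam j).eval (n : ℝ))
    (hq : ∀ j, (∃ b : G, ∀ n, q j n = b ^ n) ∨ AEConv μ fun n => (Φ (q j n) : X → X))
    (S : Finset (Fin m)) (hS0 : ∀ v ∈ S, 0 < (lam v).natDegree)
    (hS1 : ∀ v ∈ S, ∀ w ∈ S, v ≠ w → 0 < (lam v - lam w).natDegree)
    (hS2 : ∀ v ∈ S, ∀ u ∉ S, Tendsto
      (fun n : ℤ => (lam v).eval (n : ℝ) - (lam u).eval (n : ℝ)) cofinite atTop)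
    (f : Fin m → X → ℂ) (hf : ∀ j, MemLp (f j) ∞ μ) :
    (∀ᵐ x ∂μ, ∀ w : ℤ → ℂ, (∃ C : ℝ, ∀ n, ‖w n‖ ≤ C) → Deterministic w →
      Tendsto (fun N : ℕ => ((2 * N + 1 : ℕ) : ℂ)⁻¹ *
        ∑ n ∈ Finset.Icc (-(N : ℤ)) (N : ℤ), w n * (∏ j, f j (Φ (q j n) x) -
          ∏ j, (if j ∈ S then μ[f j | 𝒴] else f j) (Φ (q j n) x))) atTop (𝓝 0)) ∧
    (∀ (k : ℕ) (R : Fin k → Equiv.Perm X), (∀ i, MeasurePreserving (R i) μ μ ∧
        MeasurePreserving ((R i)⁻¹ : Equiv.Perm X) μ μ ∧ ZeroEntropy μ (R i)) →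
      ∀ g : Fin k → X → ℂ, (∀ i, MemLp (g i) ∞ μ) → ∀ᵐ x ∂μ,
        Tendsto (fun N : ℕ => ((2 * N + 1 : ℕ) : ℂ)⁻¹ *
          ∑ n ∈ Finset.Icc (-(N : ℤ)) (N : ℤ), (∏ i, g i ((R i ^ n : Equiv.Perm X) x)) *
            (∏ j, f j (Φ (q j n) x) -
              ∏ j, (if j ∈ S then μ[f j | 𝒴] else f j) (Φ (q j n) x))) atTop (𝓝 0)) := by
  have hK : Pool.Agent.TH784.KE.KExt μ 𝒜 𝒴 Φ ℓ := ⟨hΦ, ⟨hℓ, h𝒜, hmono⟩, ⟨h𝒴, hinv⟩, hgen, htail⟩
  choose F hF hfF using fun j => BM_of_memLp (hf j)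
  choose e he heY hee hfe using fun j =>
    Pool.Agent.TH784.KE.exists_cond (μ := μ) (h𝒴.trans h𝒜) (hF j)
  have hmain := two_sided_ww hK hlam hq hS0 hS1 hS2 (f := F)
    (e := fun j => if j ∈ S then e j else F j) hF
    (fun j hj => by simp only [hj, if_true]; exact he j)
    (fun j hj => by simp only [hj, if_true]; exact heY j)
    (fun j hj => by simp only [hj, if_false])
    (fun j hj B hB => by simp only [hj, if_true]; exact hfe j B hB)
  have h1 : ∀ᵐ x ∂μ, ∀ (n : ℤ) (j : Fin m), f j (Φ (q j n) x) = F j (Φ (q j n) x) := by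
    rw [ae_all_iff]
    intro n
    rw [ae_all_iff]
    intro j
    exact (hΦ _).quasiMeasurePreserving.ae (hfF j)
  have h2 : ∀ᵐ x ∂μ, ∀ (n : ℤ) (j : Fin m),
      (if j ∈ S then μ[f j | 𝒴] else f j) (Φ (q j n) x) =
        (if j ∈ S then e j else F j) (Φ (q j n) x) := by
    rw [ae_all_iff]
    intro n
    rw [ae_all_iff]
    intro j
    have h3 : (if j ∈ S then μ[f j | 𝒴] else f j) =ᵐ[μ] (if j ∈ S then e j else F j) := by
      by_cases hj : j ∈ S
      · simp only [hj, if_true]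
        exact (condExp_congr_ae (hfF j)).trans (hee j).symm
      · simp only [hj, if_false]
        exact hfF j
    exact (hΦ _).quasiMeasurePreserving.ae h3
  have hfirst : ∀ᵐ x ∂μ, ∀ w : ℤ → ℂ, (∃ C : ℝ, ∀ n, ‖w n‖ ≤ C) → Deterministic w →
      Tendsto (fun N : ℕ => ((2 * N + 1 : ℕ) : ℂ)⁻¹ *
        ∑ n ∈ Finset.Icc (-(N : ℤ)) (N : ℤ), w n * (∏ j, f j (Φ (q j n) x) -
          ∏ j, (if j ∈ S then μ[f j | 𝒴] else f j) (Φ (q j n) x))) atTop (𝓝 0) := by
    filter_upwards [hmain, h1, h2] with x hx hx1 hx2 w hw hdet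
    refine (hx w hw hdet).congr fun N => ?_
    congr 1
    refine Finset.sum_congr rfl fun n _ => ?_
    congr 2
    · exact Finset.prod_congr rfl fun j _ => (hx1 n j).symm
    · exact Finset.prod_congr rfl fun j _ => (hx2 n j).symm
  refine ⟨hfirst, fun k R hR g hg => ?_⟩
  choose g' hg' hgg' using fun i => BM_of_memLp (hg i)
  have h3 : ∀ᵐ x ∂μ, ∀ (n : ℤ) (i : Fin k), g i ((R i ^ n : Equiv.Perm X) x) =
      g' i ((R i ^ n : Equiv.Perm X) x) := by
    rw [ae_all_iff]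
    intro n
    rw [ae_all_iff]
    intro i
    have h4 : MeasurePreserving ((R i ^ n : Equiv.Perm X) : X → X) μ μ := by
      rcases Int.eq_nat_or_neg n with ⟨a, rfl | rfl⟩
      · rw [zpow_natCast, Equiv.Perm.coe_pow]
        exact (hR i).1.iterate a
      · rw [zpow_neg, zpow_natCast, ← inv_pow, Equiv.Perm.coe_pow]
        exact (hR i).2.1.iterate a
    exact h4.quasiMeasurePreserving.ae (hgg' i)
  filter_upwards [hfirst, det_products hR hg', h3] with x hx hx2 hx3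
  refine (hx _ hx2.1 hx2.2).congr fun N => ?_
  congr 1
  refine Finset.sum_congr rfl fun n _ => ?_
  congr 1
  exact Finset.prod_congr rfl fun i _ => (hx3 n i).symm

end Pool.Agent.W5h42.KW.DetW
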