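import Pool.Agent.W5h42.KW.Top
import Pool.Agent.H165R3.BPE

/-!
# Orbits of maps of zero entropy are deterministic
-/

set_option autoImplicit false
set_option linter.unusedSectionVars false

open MeasureTheory Filter Topology

noncomputable section

namespace Pool.Agent.W5h42.KW

section det

variable {E F : Type*} [NormedAddCommGroup E] [NormedAddCommGroup F]

/-- the condition of `Det` for one `ε` -/
def DetE (w : ℕ → E) (ε : ℝ) : Prop :=
  ∃ L M : ℕ, 0 < L ∧ (M : ℝ) ≤ Real.exp (ε * L) ∧
    ∃ (W : Fin M → ℕ → E) (c : ℕ → Fin M), ∀ᶠ N : ℕ in atTop,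
      ∑ n ∈ Finset.range N, ‖w n - W (c (n / L)) (n % L)‖ ≤ ε * N

theorem detE_fintype {w : ℕ → E} {ε : ℝ} {L : ℕ} (hL : 0 < L) (ι : Type) [Fintype ι]
    (hι : (Fintype.card ι : ℝ) ≤ Real.exp (ε * L)) (W : ι → ℕ → E) (c : ℕ → ι)
    (h : ∀ᶠ N : ℕ in atTop, ∑ n ∈ Finset.range N, ‖w n - W (c (n / L)) (n % L)‖ ≤ ε * N) :
    DetE w ε := by
  let e := Fintype.equivFin ι
  refine ⟨L, Fintype.card ι, hL, hι, fun i => W (e.symm i), fun k => e (c k), ?_⟩
  simpa using h

theorem DetE.mono {w : ℕ → E} {ε ε' : ℝ} (h : DetE w ε) (hε : ε ≤ ε') : DetE w ε' := by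
  obtain ⟨L, M, hL, hM, W, c, h⟩ := h
  refine ⟨L, M, hL, hM.trans (Real.exp_le_exp.2 ?_), W, c, ?_⟩
  · exact mul_le_mul_of_nonneg_right hε (Nat.cast_nonneg L)
  · filter_upwards [h] with N hN
    exact hN.trans (mul_le_mul_of_nonneg_right hε (Nat.cast_nonneg N))

theorem det_iff {w : ℕ → E} : Det w ↔ ∀ i : ℕ, DetE w (1 / ((i : ℝ) + 1)) := by
  constructor
  · intro h i
    exact h _ (by positivity)
  · intro h ε hε
    obtain ⟨i, hi⟩ := exists_nat_one_div_lt hε
    exact (h i).mono hi.le

/-- truncation -/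
def trc (C : ℝ) (z : ℂ) : ℂ := if ‖z‖ ≤ 2 * C then z else 0

theorem trc_norm {C : ℝ} (hC : 0 ≤ C) (z : ℂ) : ‖trc C z‖ ≤ 2 * C := by
  unfold trc
  split_ifs with h
  · exact h
  · rw [norm_zero]
    linarith

theorem trc_near {C : ℝ} {w z : ℂ} (hw : ‖w‖ ≤ C) : ‖w - trc C z‖ ≤ ‖w - z‖ := by
  unfold trc
  split_ifs with h
  · exact le_rfl
  · rw [sub_zero]
    have h1 : ‖z‖ ≤ ‖w‖ + ‖w - z‖ := by
      have := norm_sub_le w (w - z)
      rwa [sub_sub_cancel] at this
    linarith

/-- products of deterministic sequences -/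
theorem Det.mul {w w' : ℕ → ℂ} (hw : Det w) (hw' : Det w') (hb : ∃ C : ℝ, ∀ n, ‖w n‖ ≤ C)
    (hb' : ∃ C : ℝ, ∀ n, ‖w' n‖ ≤ C) : Det fun n => w n * w' n := by
  obtain ⟨C, hC⟩ := hb
  obtain ⟨C', hC'⟩ := hb'
  have hC0 : 0 ≤ C := (norm_nonneg _).trans (hC 0)
  have hC'0 : 0 ≤ C' := (norm_nonneg _).trans (hC' 0)
  intro ε hε
  set η : ℝ := min (ε / 2) (ε / (C' + 2 * C + 1)) with hη
  have hη0 : 0 < η := lt_min (by positivity) (by positivity)
  obtain ⟨L, M, hL, hM, W, c, h⟩ := hw η hη0
  obtain ⟨L', M', hL', hM', W', c', h'⟩ := hw' η hη0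
  have hLL : 0 < L * L' := Nat.mul_pos hL hL'
  have hLr : (0 : ℝ) < L := by exact_mod_cast hL
  have hLr' : (0 : ℝ) < L' := by exact_mod_cast hL'
  refine detE_fintype hLL ((Fin L' → Fin M) × (Fin L → Fin M')) ?_
    (fun k n => trc C (if h : n / L < L' then W (k.1 ⟨n / L, h⟩) (n % L) else 0) *
      (if h : n / L' < L then W' (k.2 ⟨n / L', h⟩) (n % L') else 0))
    (fun k => (fun i => c (k * L' + i), fun i => c' (k * L + i))) ?_
  · rw [Fintype.card_prod, Fintype.card_fun, Fintype.card_fun, Fintype.card_fin,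
      Fintype.card_fin, Fintype.card_fin, Fintype.card_fin]
    push_cast
    have h1 : (M : ℝ) ^ L' ≤ Real.exp (η * L * L') := by
      calc (M : ℝ) ^ L' ≤ Real.exp (η * L) ^ L' := pow_le_pow_left₀ (Nat.cast_nonneg M) hM L'
        _ = Real.exp (η * L * L') := by
          rw [← Real.exp_nat_mul]
          congr 1
          ring
    have h2 : (M' : ℝ) ^ L ≤ Real.exp (η * L * L') := by
      calc (M' : ℝ) ^ L ≤ Real.exp (η * L') ^ L := pow_le_pow_left₀ (Nat.cast_nonneg M') hM' L
        _ = Real.exp (η * L * L') := by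
          rw [← Real.exp_nat_mul]
          congr 1
          ring
    calc (M : ℝ) ^ L' * (M' : ℝ) ^ L ≤ Real.exp (η * L * L') * Real.exp (η * L * L') :=
          mul_le_mul h1 h2 (by positivity) (by positivity)
      _ = Real.exp (2 * η * (L * L')) := by
          rw [← Real.exp_add]
          congr 1
          ring
      _ ≤ _ := by
          apply Real.exp_le_exp.2
          refine mul_le_mul_of_nonneg_right ?_ (by positivity)
          have := min_le_left (ε / 2) (ε / (C' + 2 * C + 1))
          linarith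
  · filter_upwards [h, h'] with N hN hN'
    have hpt : ∀ n, ‖w n * w' n -
        (trc C (if h : n % (L * L') / L < L' then W (c (n / (L * L') * L' + n % (L * L') / L))
          (n % (L * L') % L) else 0) *
        (if h : n % (L * L') / L' < L then W' (c' (n / (L * L') * L + n % (L * L') / L'))
          (n % (L * L') % L') else 0))‖ ≤
        C' * ‖w n - W (c (n / L)) (n % L)‖ + 2 * C * ‖w' n - W' (c' (n / L')) (n % L')‖ := by
      intro n
      have hmod : n % (L * L') < L * L' := Nat.mod_lt _ hLL
      have k1 : n % (L * L') / L < L' := Nat.div_lt_of_lt_mul hmod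
      have k2 : n % (L * L') / L' < L :=
        Nat.div_lt_of_lt_mul (hmod.trans_eq (mul_comm L L'))
      have hn : n = L * L' * (n / (L * L')) + n % (L * L') := (Nat.div_add_mod n (L * L')).symm
      have k3 : n / (L * L') * L' + n % (L * L') / L = n / L := by
        conv_rhs => rw [hn]
        rw [show L * L' * (n / (L * L')) + n % (L * L') =
          n % (L * L') + L * (n / (L * L') * L') by ring, Nat.add_mul_div_left _ _ hL, add_comm]
      have k4 : n / (L * L') * L + n % (L * L') / L' = n / L' := by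
        conv_rhs => rw [hn]
        rw [show L * L' * (n / (L * L')) + n % (L * L') =
          n % (L * L') + L' * (n / (L * L') * L) by ring, Nat.add_mul_div_left _ _ hL', add_comm]
      have k5 : n % (L * L') % L = n % L := Nat.mod_mul_right_mod n L L'
      have k6 : n % (L * L') % L' = n % L' := by
        rw [mul_comm]
        exact Nat.mod_mul_right_mod n L' L
      rw [dif_pos k1, dif_pos k2, k3, k4, k5, k6]
      have e : w n * w' n - trc C (W (c (n / L)) (n % L)) * W' (c' (n / L')) (n % L') =
          (w n - trc C (W (c (n / L)) (n % L))) * w' n +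
          trc C (W (c (n / L)) (n % L)) * (w' n - W' (c' (n / L')) (n % L')) := by ring
      rw [e]
      refine (norm_add_le _ _).trans ?_
      rw [norm_mul, norm_mul]
      refine add_le_add ?_ ?_
      · rw [mul_comm]
        exact mul_le_mul (hC' n) (trc_near (hC n)) (norm_nonneg _) hC'0
      · exact mul_le_mul_of_nonneg_right (trc_norm hC0 _) (norm_nonneg _)
    refine (Finset.sum_le_sum fun n _ => hpt n).trans ?_
    rw [Finset.sum_add_distrib, ← Finset.mul_sum, ← Finset.mul_sum]
    calc C' * ∑ n ∈ Finset.range N, ‖w n - W (c (n / L)) (n % L)‖ +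
        2 * C * ∑ n ∈ Finset.range N, ‖w' n - W' (c' (n / L')) (n % L')‖ ≤
        C' * (η * N) + 2 * C * (η * N) :=
          add_le_add (mul_le_mul_of_nonneg_left hN hC'0)
            (mul_le_mul_of_nonneg_left hN' (by positivity))
      _ = (C' + 2 * C) * η * N := by ring
      _ ≤ ε * N := by
          refine mul_le_mul_of_nonneg_right ?_ (Nat.cast_nonneg N)
          have h1 := min_le_right (ε / 2) (ε / (C' + 2 * C + 1))
          have h2 : (C' + 2 * C) * η ≤ (C' + 2 * C) * (ε / (C' + 2 * C + 1)) :=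
            mul_le_mul_of_nonneg_left h1 (by positivity)
          refine h2.trans ?_
          rw [mul_div_assoc', div_le_iff₀ (by positivity)]
          nlinarith

theorem det_const (a : ℂ) : Det fun _ => a := by
  intro ε hε
  refine ⟨1, 1, one_pos, ?_, fun _ _ => a, fun _ => 0, ?_⟩
  · rw [Nat.cast_one]
    exact Real.one_le_exp (by positivity)
  · refine Eventually.of_forall fun N => ?_
    simp only [sub_self, norm_zero, Finset.sum_const_zero]
    positivity

theorem det_prod {ι : Type*} (s : Finset ι) {w : ι → ℕ → ℂ} (hw : ∀ i ∈ s, Det (w i))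
    (hb : ∀ i ∈ s, ∃ C : ℝ, ∀ n, ‖w i n‖ ≤ C) :
    Det (fun n => ∏ i ∈ s, w i n) ∧ ∃ C : ℝ, ∀ n, ‖∏ i ∈ s, w i n‖ ≤ C := by
  classical
  induction s using Finset.induction_on with
  | empty =>
    simp only [Finset.prod_empty]
    exact ⟨det_const 1, 1, fun _ => by simp⟩
  | insert i s hi ih =>
    obtain ⟨h1, C, h2⟩ := ih (fun j hj => hw j (Finset.mem_insert_of_mem hj))
      (fun j hj => hb j (Finset.mem_insert_of_mem hj))
    obtain ⟨C', h3⟩ := hb i (Finset.mem_insert_self i s)
    simp only [Finset.prod_insert hi]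
    refine ⟨(hw i (Finset.mem_insert_self i s)).mul h1 ⟨C', h3⟩ ⟨C, h2⟩, C' * C, fun n => ?_⟩
    rw [norm_mul]
    exact mul_le_mul (h3 n) (h2 n) (norm_nonneg _) ((norm_nonneg _).trans (h3 0))

end det

variable {X : Type*} {mX : MeasurableSpace X} {μ : Measure X} [IsProbabilityMeasure μ]

theorem nm_meas {r : ℕ} {T : X → X} (hT : Measurable T) {α : X → Fin r} (hα : Measurable α)
    (n : ℕ) : Measurable (nm T α n) :=
  measurable_pi_lambda _ fun i => hα.comp (hT.iterate i)

/-- few names carry most of the mass -/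
theorem few_names {r : ℕ} {T : X → X} (hT : Measurable T) {α : X → Fin r} (hα : Measurable α)
    {L : ℕ} {η δ : ℝ} (hη : 0 < η) (hL : 0 < L) (hH : Hn μ T α L ≤ η * δ * L) :
    ∃ S : Finset (Fin L → Fin r), (S.card : ℝ) ≤ Real.exp (η * L) ∧
      μ.real (nm T α L ⁻¹' (S : Set (Fin L → Fin r))ᶜ) ≤ δ := by
  classical
  have hL' : (0 : ℝ) < L := by exact_mod_cast hL
  let P : (Fin L → Fin r) → ℝ := fun w => μ.real (nm T α L ⁻¹' {w})
  have hms : ∀ S : Set (Fin L → Fin r), MeasurableSet (nm T α L ⁻¹' S) := fun S =>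
    nm_meas hT hα L (Set.toFinite S).measurableSet
  have hP0 : ∀ w, 0 ≤ P w := fun w => measureReal_nonneg
  have hP1 : ∀ w, P w ≤ 1 := fun w => measureReal_le_one
  have hsum : ∀ S : Finset (Fin L → Fin r), μ.real (nm T α L ⁻¹' (S : Set (Fin L → Fin r))) =
      ∑ w ∈ S, P w := by
    intro S
    have e : nm T α L ⁻¹' (S : Set (Fin L → Fin r)) = ⋃ w ∈ S, nm T α L ⁻¹' {w} := by
      ext x
      simp
    rw [e, measureReal_biUnion_finset]
    · intro a _ b _ hab
      exact Disjoint.preimage _ (by simpa using hab)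
    · intro w _
      exact hms _
  set S : Finset (Fin L → Fin r) := Finset.univ.filter fun w => Real.exp (-(η * L)) ≤ P w with hS
  refine ⟨S, ?_, ?_⟩
  · have h1 : (S.card : ℝ) * Real.exp (-(η * L)) ≤ 1 := by
      calc (S.card : ℝ) * Real.exp (-(η * L)) = ∑ w ∈ S, Real.exp (-(η * L)) := by
            rw [Finset.sum_const, nsmul_eq_mul]
        _ ≤ ∑ w ∈ S, P w := Finset.sum_le_sum fun w hw => (Finset.mem_filter.1 hw).2
        _ = μ.real (nm T α L ⁻¹' (S : Set (Fin L → Fin r))) := (hsum S).symm
        _ ≤ 1 := measureReal_le_one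
    rw [Real.exp_neg, ← div_eq_mul_inv, div_le_one (Real.exp_pos _)] at h1
    exact h1
  · have e : ((S : Set (Fin L → Fin r))ᶜ) = ((Sᶜ : Finset (Fin L → Fin r)) : Set _) := by
      simp
    rw [e, hsum]
    have h2 : ∀ w ∈ Sᶜ, P w * (η * L) ≤ Real.negMulLog (P w) := by
      intro w hw
      have h3 : P w < Real.exp (-(η * L)) := by
        by_contra hcon
        rw [not_lt] at hcon
        exact (Finset.mem_compl.1 hw) (Finset.mem_filter.2 ⟨Finset.mem_univ w, hcon⟩)
      unfold Real.negMulLog
      rcases (hP0 w).eq_or_lt with h4 | h4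
      · rw [← h4]
        simp
      · have h5 : Real.log (P w) < -(η * L) := by
          rw [Real.log_lt_iff_lt_exp h4]
          exact h3
        nlinarith
    have h6 : (∑ w ∈ Sᶜ, P w) * (η * L) ≤ η * δ * L := by
      rw [Finset.sum_mul]
      calc ∑ w ∈ Sᶜ, P w * (η * L) ≤ ∑ w ∈ Sᶜ, Real.negMulLog (P w) := Finset.sum_le_sum h2
        _ ≤ ∑ w, Real.negMulLog (P w) :=
            Finset.sum_le_sum_of_subset_of_nonneg (Finset.subset_univ _) fun w _ _ =>
              Real.negMulLog_nonneg (hP0 w) (hP1 w)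
        _ ≤ _ := hH
    have h7 : (∑ w ∈ Sᶜ, P w) * (η * L) ≤ δ * (η * L) := by linarith
    exact le_of_mul_le_mul_right h7 (by positivity)

/-- a bounded measurable function is uniformly close to one with finitely many values -/
theorem exists_finite_approx {f : X → ℂ} (hf : Measurable f) {C : ℝ} (hC : ∀ x, ‖f x‖ ≤ C)
    {ε : ℝ} (hε : 0 < ε) :
    ∃ (r : ℕ) (α : X → Fin r) (φ : Fin r → ℂ), Measurable α ∧ ∀ x, ‖f x - φ (α x)‖ ≤ ε := by
  obtain ⟨t, ht⟩ := (isCompact_closedBall (0 : ℂ) C).elim_finite_subcover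
    (fun k : ℕ => Metric.ball (TopologicalSpace.denseSeq ℂ k) ε) (fun k => Metric.isOpen_ball) (by
      intro z _
      obtain ⟨y, hy, hzy⟩ := Metric.dense_iff.1 (TopologicalSpace.denseRange_denseSeq ℂ) z ε hε
      obtain ⟨k, rfl⟩ := hzy
      refine Set.mem_iUnion.2 ⟨k, ?_⟩
      rw [Metric.mem_ball, dist_comm]
      exact hy)
  set N : ℕ := t.sup id with hN
  let e : ℕ → ℂ := TopologicalSpace.denseSeq ℂ
  refine ⟨N + 1, fun x => ⟨SimpleFunc.nearestPtInd e N (f x), Nat.lt_succ_of_le
    (SimpleFunc.nearestPtInd_le e N (f x))⟩, fun i => e i, ?_, ?_⟩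
  · refine measurable_to_countable' fun i => ?_
    have h1 : MeasurableSet {x | SimpleFunc.nearestPtInd e N (f x) = (i : ℕ)} :=
      ((SimpleFunc.nearestPtInd e N).measurable.comp hf) (measurableSet_singleton _)
    convert h1 using 1
    ext x
    simp [Fin.ext_iff]
  · intro x
    have hx : f x ∈ Metric.closedBall (0 : ℂ) C := by
      rw [mem_closedBall_zero_iff]
      exact hC x
    obtain ⟨k, hk, hxk⟩ := Set.mem_iUnion₂.1 (ht hx)
    have hkN : k ≤ N := Finset.le_sup (f := id) hk
    have h1 := SimpleFunc.edist_nearestPt_le e (f x) hkN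
    rw [← dist_eq_norm, dist_comm]
    have h2 : edist (e k) (f x) ≤ ENNReal.ofReal ε := by
      rw [edist_dist]
      apply ENNReal.ofReal_le_ofReal
      rw [dist_comm]
      exact (Metric.mem_ball.1 hxk).le
    have h3 := h1.trans h2
    rw [edist_dist] at h3
    exact (ENNReal.ofReal_le_ofReal_iff hε.le).1 h3

theorem good_iter {T : X → X} (hT : MeasurePreserving T μ μ) (L : ℕ) :
    Good μ fun n => T^[L * n] := by
  intro h hm hb
  obtain ⟨C, hC⟩ := hb
  have h1 := Pool.Agent.H165R3.BPE.birkhoff (hT.iterate L) h hm C hC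
  filter_upwards [h1] with x hx
  refine ⟨_, hx.congr fun N => ?_⟩
  rw [div_eq_inv_mul]
  congr 1
  refine Finset.sum_congr rfl fun n _ => ?_
  rw [← Function.iterate_mul]

/-- **Orbits of maps of zero entropy are deterministic.** -/
theorem det_orbit {T : X → X} (hT : MeasurePreserving T μ μ) (hz : ZeroEntropy μ T)
    {f : X → ℂ} (hf : Measurable f) (hfb : ∃ C : ℝ, ∀ x, ‖f x‖ ≤ C) :
    ∀ᵐ x ∂μ, Det fun n => f (T^[n] x) := by
  classical
  obtain ⟨C₀, hC₀⟩ := hfb
  set C : ℝ := |C₀| + 1 with hC
  have hCpos : 0 < C := by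
    have := abs_nonneg C₀
    linarith
  have hCb : ∀ x, ‖f x‖ ≤ C := fun x => (hC₀ x).trans ((le_abs_self _).trans (by linarith))
  have key : ∀ ε : ℝ, 0 < ε → ε ≤ 1 → ∀ᵐ x ∂μ, DetE (fun n => f (T^[n] x)) ε := by
    intro ε hε hε1
    obtain ⟨r, α, φ, hα, hφ⟩ := exists_finite_approx hf hCb (show 0 < ε / 4 by positivity)
    rw [ae_iff]
    refine le_antisymm ?_ bot_le
    refine ENNReal.le_of_forall_pos_le_add fun δ hδ _ => ?_
    rw [zero_add]
    -- parameters
    set ε' : ℝ := ε / (8 * C) with hε'
    have hε'0 : 0 < ε' := by positivity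
    have hδ' : (0 : ℝ) < δ := hδ
    have hlim := hz r α hα
    have hev1 := (tendsto_order.1 hlim).2 (ε / 2 * (δ * ε')) (by positivity)
    have hev2 : ∀ᶠ L : ℕ in atTop, 1 ≤ ε / 2 * (L : ℝ) := by
      have : Tendsto (fun L : ℕ => ε / 2 * (L : ℝ)) atTop atTop :=
        tendsto_natCast_atTop_atTop.const_mul_atTop (by positivity)
      exact this.eventually_ge_atTop 1
    obtain ⟨L, ⟨hL1, hL2⟩, hL⟩ := ((hev1.and hev2).and (eventually_gt_atTop 0)).exists
    have hL' : (0 : ℝ) < L := by exact_mod_cast hL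
    rw [div_lt_iff₀ hL'] at hL1
    obtain ⟨S, hS1, hS2⟩ := few_names (μ := μ) hT.measurable hα (η := ε / 2) (δ := δ * ε')
      (by positivity) hL hL1.le
    set bad : Set X := nm T α L ⁻¹' (S : Set (Fin L → Fin r))ᶜ with hbad
    have hbadm : MeasurableSet bad := nm_meas hT.measurable hα L (Set.toFinite _).measurableSet
    obtain ⟨τ, hτi, hτ0, hτint, hτ⟩ := good_int (good_iter hT L)
      (fun n => hT.iterate _) (h := bad.indicator fun _ => 1)
      (measurable_const.indicator hbadm) (fun x => Set.indicator_nonneg (fun _ _ => zero_le_one) x)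
      (C := 1) (fun x => Set.indicator_le_self' (fun _ _ => zero_le_one) x)
    have hτint' : ∫ x, τ x ∂μ ≤ δ * ε' := by
      refine hτint.trans ?_
      rw [integral_indicator_const _ hbadm, smul_eq_mul, mul_one]
      exact hS2
    have hmark := mul_meas_ge_le_integral_of_nonneg hτ0 hτi ε'
    have hmark' : μ.real {x | ε' ≤ τ x} ≤ δ := by
      have h1 := hmark.trans hτint'
      rw [mul_comm (δ : ℝ) ε'] at h1
      exact le_of_mul_le_mul_left h1 hε'0
    have hsub : ∀ᵐ x ∂μ, x ∈ {x | ¬ DetE (fun n => f (T^[n] x)) ε} → x ∈ {x | ε' ≤ τ x} := by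
      filter_upwards [hτ] with x hx hx3
      show ε' ≤ τ x
      by_contra hcon
      rw [not_le] at hcon
      apply hx3
      -- the code
      refine detE_fintype hL (Option S) ?_
        (fun o n => match o with
          | none => 0
          | some w => if h : n < L then φ (w.1 ⟨n, h⟩) else 0)
        (fun k => if h : nm T α L (T^[L * k] x) ∈ S then some ⟨_, h⟩ else none) ?_
      · rw [Fintype.card_option, Fintype.card_coe]
        push_cast
        have h1 : (1 : ℝ) + ε / 2 * L ≤ Real.exp (ε / 2 * L) := by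
          rw [add_comm]
          exact Real.add_one_le_exp _
        have h2 : Real.exp (ε * L) = Real.exp (ε / 2 * L) * Real.exp (ε / 2 * L) := by
          rw [← Real.exp_add]
          congr 1
          ring
        have h3 : (1 : ℝ) ≤ Real.exp (ε / 2 * L) := Real.one_le_exp (by positivity)
        rw [h2]
        nlinarith
      · have hev := hx (ε' - τ x) (by linarith)
        have hdiv : Tendsto (fun N : ℕ => N / L + 1) atTop atTop :=
          tendsto_atTop_mono (fun N => Nat.le_succ _) (Nat.tendsto_div_const_atTop hL.ne')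
        have hlarge : ∀ᶠ N : ℕ in atTop, (L : ℝ) ≤ N := by
          filter_upwards [eventually_ge_atTop L] with N hN
          exact_mod_cast hN
        filter_upwards [hdiv.eventually hev, hlarge] with N hN hN2
        rw [show τ x + (ε' - τ x) = ε' by ring] at hN
        set m : ℕ := N / L with hm
        have hbk : ∀ n, ‖f (T^[n] x) - (match (if h : nm T α L (T^[L * (n / L)] x) ∈ S then
            some (⟨_, h⟩ : S) else none) with
          | none => 0
          | some w => if h : n % L < L then φ (w.1 ⟨n % L, h⟩) else 0)‖ ≤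
            ε / 4 + C * bad.indicator (fun _ => 1) (T^[L * (n / L)] x) := by
          intro n
          by_cases hn : nm T α L (T^[L * (n / L)] x) ∈ S
          · rw [dif_pos hn]
            have h1 : n % L < L := Nat.mod_lt _ hL
            simp only [dif_pos h1]
            have h2 : nm T α L (T^[L * (n / L)] x) ⟨n % L, h1⟩ = α (T^[n] x) := by
              show α (T^[n % L] (T^[L * (n / L)] x)) = _
              rw [← Function.iterate_add_apply, Nat.mod_add_div]
            rw [h2]
            have h3 : 0 ≤ C * bad.indicator (fun _ => (1 : ℝ)) (T^[L * (n / L)] x) :=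
              mul_nonneg hCpos.le (Set.indicator_nonneg (fun _ _ => zero_le_one) _)
            exact (hφ _).trans (by linarith)
          · rw [dif_neg hn]
            have h1 : T^[L * (n / L)] x ∈ bad := hn
            rw [Set.indicator_of_mem h1, sub_zero, mul_one]
            exact (hCb _).trans (by linarith)
        refine (Finset.sum_le_sum fun n _ => hbk n).trans ?_
        rw [Finset.sum_add_distrib, ← Finset.mul_sum, Finset.sum_const, Finset.card_range,
          nsmul_eq_mul]
        have hblock : ∑ n ∈ Finset.range N, bad.indicator (fun _ => (1 : ℝ))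
            (T^[L * (n / L)] x) ≤
            L * ∑ k ∈ Finset.range (m + 1), bad.indicator (fun _ => (1 : ℝ)) (T^[L * k] x) := by
          have h1 : Finset.range N ⊆ Finset.range ((m + 1) * L) := by
            apply Finset.range_subset_range.2
            have := Nat.lt_div_mul_add hL (a := N)
            rw [add_mul, one_mul]
            exact this.le
          refine (Finset.sum_le_sum_of_subset_of_nonneg h1 fun _ _ _ =>
            Set.indicator_nonneg (fun _ _ => zero_le_one) _).trans ?_
          clear h1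
          generalize m + 1 = q
          induction q with
          | zero => simp
          | succ q ih =>
            rw [Finset.sum_range_succ _ q, mul_add, add_mul, one_mul, Finset.sum_range_add]
            refine add_le_add ih (le_of_eq ?_)
            rw [Finset.sum_congr rfl (g := fun _ => bad.indicator (fun _ => (1 : ℝ))
              (T^[L * q] x)), Finset.sum_const, Finset.card_range, nsmul_eq_mul]
            intro i hi
            have h2 : (q * L + i) / L = q := by
              rw [mul_comm, Nat.mul_add_div hL, Nat.div_eq_of_lt (Finset.mem_range.1 hi), add_zero]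
            rw [h2]
        have h3 : (L : ℝ) * ((m : ℝ) + 1) ≤ 2 * N := by
          have h4 : (m : ℝ) * L ≤ N := by
            exact_mod_cast Nat.div_mul_le_self N L
          nlinarith
        have h5 : ∑ n ∈ Finset.range N, bad.indicator (fun _ => (1 : ℝ))
            (T^[L * (n / L)] x) ≤ ε' * (2 * N) := by
          refine hblock.trans ?_
          calc (L : ℝ) * ∑ k ∈ Finset.range (m + 1), bad.indicator (fun _ => (1 : ℝ))
                (T^[L * k] x) ≤ L * (ε' * ((m + 1 : ℕ) : ℝ)) :=
                mul_le_mul_of_nonneg_left hN hL'.le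
            _ = ε' * (L * ((m : ℝ) + 1)) := by
                push_cast
                ring
            _ ≤ ε' * (2 * N) := mul_le_mul_of_nonneg_left h3 hε'0.le
        have h6 : C * ∑ n ∈ Finset.range N, bad.indicator (fun _ => (1 : ℝ))
            (T^[L * (n / L)] x) ≤ ε / 4 * N := by
          calc _ ≤ C * (ε' * (2 * N)) := mul_le_mul_of_nonneg_left h5 hCpos.le
            _ = ε / 4 * N := by
                rw [hε']
                field_simp
                ring
        have hN0 : (0 : ℝ) ≤ N := Nat.cast_nonneg N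
        nlinarith
    have h10 : μ {x | ¬ DetE (fun n => f (T^[n] x)) ε} ≤ μ {x | ε' ≤ τ x} := measure_mono_ae hsub
    refine h10.trans ?_
    have h9 : μ {x | ε' ≤ τ x} = ENNReal.ofReal (μ.real {x | ε' ≤ τ x}) := by
      rw [measureReal_def, ENNReal.ofReal_toReal (measure_ne_top _ _)]
    rw [h9]
    calc ENNReal.ofReal (μ.real {x | ε' ≤ τ x}) ≤ ENNReal.ofReal (δ : ℝ) :=
          ENNReal.ofReal_le_ofReal hmark'
      _ = δ := ENNReal.ofReal_coe_nnreal
  have hall := ae_all_iff.mpr fun i : ℕ => key (1 / ((i : ℝ) + 1)) (by positivity) (by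
    rw [div_le_one (by positivity)]
    have : (0 : ℝ) ≤ i := Nat.cast_nonneg i
    linarith)
  filter_upwards [hall] with x hx
  exact det_iff.2 hx

end Pool.Agent.W5h42.KW
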