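import Pool.Agent.W5h42.KW.Cplx
import Pool.Agent.W5h42.KW.Ent

/-!
# Polynomial levels, two-sided averages
-/

set_option autoImplicit false
set_option linter.unusedSectionVars false

open MeasureTheory Filter Topology

noncomputable section

namespace Pool.Agent.W5h42.KW

open Pool.Agent.TH784.KE
open Pool.Agent.W761.Box (BM)

/-- a real polynomial that is not constant grows or decreases with steps bounded from below -/
theorem poly_steps {p : Polynomial ℝ} (hp : 0 < p.natDegree) :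
    ∃ (c : ℝ) (n₀ : ℕ), 0 < c ∧ Steps (fun n : ℕ => p.eval (n : ℝ)) c n₀ := by
  have pos : ∀ p : Polynomial ℝ, 0 < p.natDegree → 0 < p.leadingCoeff →
      ∃ (c : ℝ) (n₀ : ℕ), 0 < c ∧ ∀ m : ℕ, n₀ ≤ m →
        p.eval (m : ℝ) + c ≤ p.eval ((m + 1 : ℕ) : ℝ) := by
    intro p hp hlc
    obtain ⟨c, hc, x₀, hx₀⟩ : ∃ c : ℝ, 0 < c ∧ ∃ x₀ : ℝ, ∀ x, x₀ ≤ x →
        c ≤ p.derivative.eval x := by
      have hdlc : p.derivative.leadingCoeff = p.natDegree * p.leadingCoeff := by
        have h1 : p.derivative.natDegree = p.natDegree - 1 := Polynomial.natDegree_derivative p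
        rw [Polynomial.leadingCoeff, h1, Polynomial.coeff_derivative, Nat.sub_add_cancel hp,
          Polynomial.leadingCoeff, mul_comm]
        congr 1
        have : ((p.natDegree - 1 : ℕ) : ℝ) + 1 = p.natDegree := by
          rw [Nat.cast_sub hp]
          push_cast
          ring
        exact this
      have hpos : 0 < p.derivative.leadingCoeff := by
        rw [hdlc]
        have : (0 : ℝ) < p.natDegree := by exact_mod_cast hp
        positivity
      rcases Nat.eq_zero_or_pos p.derivative.natDegree with h0 | h0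
      · obtain ⟨a, ha⟩ := Polynomial.natDegree_eq_zero.1 h0
        rw [← ha, Polynomial.leadingCoeff_C] at hpos
        exact ⟨a, hpos, 0, fun x _ => by rw [← ha, Polynomial.eval_C]⟩
      · have h1 := Polynomial.tendsto_atTop_of_leadingCoeff_nonneg p.derivative
          (Polynomial.natDegree_pos_iff_degree_pos.1 h0) hpos.le
        obtain ⟨x₀, hx₀⟩ := eventually_atTop.1 (h1.eventually_ge_atTop 1)
        exact ⟨1, one_pos, x₀, hx₀⟩
    obtain ⟨n₀, hn₀⟩ := exists_nat_ge x₀
    refine ⟨c, n₀, hc, fun m hm => ?_⟩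
    have hm' : x₀ ≤ m := hn₀.trans (by exact_mod_cast hm)
    have hlt : (m : ℝ) < ((m + 1 : ℕ) : ℝ) := by exact_mod_cast Nat.lt_succ_self m
    obtain ⟨ξ, hξ, hξ'⟩ := exists_deriv_eq_slope (fun x => p.eval x) hlt
      p.continuous.continuousOn p.differentiable.differentiableOn
    rw [Polynomial.deriv] at hξ'
    have h2 := hx₀ ξ (hm'.trans hξ.1.le)
    have h3 : ((m + 1 : ℕ) : ℝ) - m = 1 := by
      push_cast
      ring
    rw [h3, div_one] at hξ'
    linarith
  rcases lt_or_gt_of_ne (Polynomial.leadingCoeff_ne_zero.2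
    (Polynomial.ne_zero_of_natDegree_gt hp)) with h | h
  · obtain ⟨c, n₀, hc, h1⟩ := pos (-p) (by rwa [Polynomial.natDegree_neg])
      (by rw [Polynomial.leadingCoeff_neg]; linarith)
    refine ⟨c, n₀, hc, Or.inr fun m hm => ?_⟩
    have h2 := h1 m hm
    simp only [Polynomial.eval_neg] at h2
    linarith
  · obtain ⟨c, n₀, hc, h1⟩ := pos p hp h
    exact ⟨c, n₀, hc, Or.inl h1⟩

theorem poly_tendsto {p : Polynomial ℝ} (hp : 0 < p.natDegree) :
    Tendsto (fun n : ℕ => p.eval (n : ℝ)) atTop atTop ∨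
      Tendsto (fun n : ℕ => -p.eval (n : ℝ)) atTop atTop := by
  rcases le_total 0 p.leadingCoeff with h | h
  · exact Or.inl ((Polynomial.tendsto_atTop_of_leadingCoeff_nonneg p
      (Polynomial.natDegree_pos_iff_degree_pos.1 hp) h).comp tendsto_natCast_atTop_atTop)
  · right
    have h1 := (Polynomial.tendsto_atTop_of_leadingCoeff_nonneg (-p)
      (Polynomial.natDegree_pos_iff_degree_pos.1 (by rwa [Polynomial.natDegree_neg]))
      (by rw [Polynomial.leadingCoeff_neg]; linarith)).comp tendsto_natCast_atTop_atTop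
    refine h1.congr fun n => ?_
    simp

/-- two-sided averages from one-sided averages -/
theorem two_sided {F : ℤ → ℂ}
    (h1 : Tendsto (fun N : ℕ => (∑ n ∈ Finset.range N, F n) / N) atTop (𝓝 0))
    (h2 : Tendsto (fun N : ℕ => (∑ n ∈ Finset.range N, F (-(n : ℤ))) / N) atTop (𝓝 0)) :
    Tendsto (fun N : ℕ => ((2 * N + 1 : ℕ) : ℂ)⁻¹ *
      ∑ n ∈ Finset.Icc (-(N : ℤ)) (N : ℤ), F n) atTop (𝓝 0) := by
  have e1 := h1.comp (tendsto_add_atTop_nat 1)
  have e2 := h2.comp (tendsto_add_atTop_nat 1)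
  have e1' : Tendsto (fun N : ℕ => ((N : ℂ) + 1)⁻¹ * ∑ n ∈ Finset.range (N + 1), F (n : ℤ))
      atTop (𝓝 0) := e1.congr fun N => by
    rw [Function.comp_apply, div_eq_inv_mul]
    push_cast
    rfl
  have e2' : Tendsto (fun N : ℕ => ((N : ℂ) + 1)⁻¹ * ∑ n ∈ Finset.range (N + 1), F (-(n : ℤ)))
      atTop (𝓝 0) := e2.congr fun N => by
    rw [Function.comp_apply, div_eq_inv_mul]
    push_cast
    rfl
  have hinv : Tendsto (fun N : ℕ => ((2 * N + 1 : ℕ) : ℂ)⁻¹) atTop (𝓝 0) := by
    have h3 : Tendsto (fun N : ℕ => ((2 * N + 1 : ℕ) : ℝ)⁻¹) atTop (𝓝 0) := by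
      apply tendsto_inv_atTop_zero.comp
      exact tendsto_natCast_atTop_atTop.comp
        (tendsto_atTop_atTop.2 fun b => ⟨b, fun a ha => by omega⟩)
    have h4 := (Complex.continuous_ofReal.tendsto _).comp h3
    simp only [Complex.ofReal_zero] at h4
    refine h4.congr fun N => ?_
    rw [Function.comp_apply]
    push_cast
    rfl
  have hr : Tendsto (fun N : ℕ => ((N : ℂ) + 1) * ((2 * N + 1 : ℕ) : ℂ)⁻¹) atTop (𝓝 (2⁻¹)) := by
    have h3 : ∀ N : ℕ, ((N : ℂ) + 1) * ((2 * N + 1 : ℕ) : ℂ)⁻¹ =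
        2⁻¹ + 2⁻¹ * ((2 * N + 1 : ℕ) : ℂ)⁻¹ := by
      intro N
      have : ((2 * N + 1 : ℕ) : ℂ) ≠ 0 := by
        exact_mod_cast Nat.succ_ne_zero (2 * N)
      field_simp
      push_cast
      ring
    simp only [h3]
    simpa using (hinv.const_mul (2⁻¹ : ℂ)).const_add (2⁻¹ : ℂ)
  have hlim := (hr.mul (e1'.add e2')).sub (hinv.mul_const (F 0))
  have e0 : (2⁻¹ : ℂ) * (0 + 0) - 0 * F 0 = 0 := by ring
  rw [e0] at hlim
  refine hlim.congr fun N => ?_
  have hsum : ∑ n ∈ Finset.Icc (-(N : ℤ)) (N : ℤ), F n =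
      ∑ n ∈ Finset.range (N + 1), F (n : ℤ) + ∑ n ∈ Finset.range (N + 1), F (-(n : ℤ)) - F 0 := by
    induction N with
    | zero => simp
    | succ N ih =>
      have e3 : Finset.Icc (-((N + 1 : ℕ) : ℤ)) ((N + 1 : ℕ) : ℤ) =
          insert ((N + 1 : ℕ) : ℤ) (insert (-((N + 1 : ℕ) : ℤ))
            (Finset.Icc (-(N : ℤ)) (N : ℤ))) := by
        ext z
        simp only [Finset.mem_insert, Finset.mem_Icc]
        push_cast
        omega
      rw [e3, Finset.sum_insert, Finset.sum_insert, ih, Finset.sum_range_succ _ (N + 1),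
        Finset.sum_range_succ _ (N + 1)]
      · ring
      · simp only [Finset.mem_Icc]
        push_cast
        omega
      · simp only [Finset.mem_insert, Finset.mem_Icc]
        push_cast
        omega
  rw [hsum]
  have hne : (N : ℂ) + 1 ≠ 0 := by exact_mod_cast Nat.succ_ne_zero N
  field_simp

variable {X : Type*} {mA mY mX : MeasurableSpace X} {μ : Measure X} [IsProbabilityMeasure μ]
variable {G : Type*} [Group G]
variable {Φ : G →* Equiv.Perm X} {ℓ : G → ℝ}
variable {J : Type*} [DecidableEq J] [Fintype J]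

theorem good_zpow (hFl : Flow μ Φ) (b : G) : AEConv μ (fun n => (Φ (b ^ n) : X → X)) := by
  have key : ∀ b : G, ∀ h : X → ℝ, Measurable h → (∃ C : ℝ, ∀ x, |h x| ≤ C) → ∀ᵐ x ∂μ,
      ∃ L : ℝ, Tendsto (fun N : ℕ => (∑ n ∈ Finset.range N, h (Φ (b ^ n) x)) / N) atTop
        (𝓝 L) := by
    intro b h hm hb
    obtain ⟨C, hC⟩ := hb
    have h1 := Pool.Agent.H165R3.BPE.birkhoff (hFl b) h hm C hC
    filter_upwards [h1] with x hx
    refine ⟨_, hx.congr fun N => ?_⟩
    rw [div_eq_inv_mul]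
    congr 1
    refine Finset.sum_congr rfl fun n _ => ?_
    rw [map_pow, Equiv.Perm.coe_pow]
  intro h hm hb
  filter_upwards [key b h hm hb, key b⁻¹ h hm hb] with x hx1 hx2
  refine ⟨?_, ?_⟩
  · simpa only [zpow_natCast] using hx1
  · simpa only [zpow_neg, zpow_natCast, inv_pow] using hx2

theorem lev_poly {p : ℕ → J → G} {lam : J → Polynomial ℝ}
    (hlam : ∀ n j, ℓ (p n j) = (lam j).eval (n : ℝ)) {S : Finset J}
    (hS0 : ∀ v ∈ S, 0 < (lam v).natDegree)
    (hS1 : ∀ v ∈ S, ∀ w ∈ S, v ≠ w → 0 < (lam v - lam w).natDegree)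
    (hS2 : ∀ v ∈ S, ∀ u ∉ S, Tendsto (fun n : ℕ => (lam v).eval (n : ℝ) - (lam u).eval (n : ℝ))
      atTop atTop) : Lev ℓ p S where
  steps v hv := by
    simp only [hlam]
    exact poly_steps (hS0 v hv)
  diff v hv w hw hvw := by
    simp only [hlam]
    rcases poly_tendsto (hS1 v hv w hw hvw) with h | h
    · left
      simpa only [Polynomial.eval_sub] using h
    · right
      refine h.congr fun n => ?_
      rw [Polynomial.eval_sub]
      ring
  low v hv w hw := by
    simp only [hlam]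
    exact hS2 v hv w hw

/-- **Two-sided averages with all deterministic weights.** -/
theorem two_sided_ww (hK : KExt μ mA mY Φ ℓ) {q : J → ℤ → G} {lam : J → Polynomial ℝ}
    (hlam : ∀ j n, ℓ (q j n) = (lam j).eval (n : ℝ))
    (hgood : ∀ j, (∃ b : G, ∀ n, q j n = b ^ n) ∨ AEConv μ fun n => (Φ (q j n) : X → X))
    {S : Finset J} (hS0 : ∀ v ∈ S, 0 < (lam v).natDegree)
    (hS1 : ∀ v ∈ S, ∀ w ∈ S, v ≠ w → 0 < (lam v - lam w).natDegree)
    (hS2 : ∀ v ∈ S, ∀ u ∉ S, Tendsto
      (fun n : ℤ => (lam v).eval (n : ℝ) - (lam u).eval (n : ℝ)) cofinite atTop)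
    {f e : J → X → ℂ} (hf : ∀ j, @BM X mX (f j)) (he : ∀ j ∈ S, @BM X mX (e j))
    (heY : ∀ j ∈ S, Measurable[mY] (e j)) (hef : ∀ j ∉ S, e j = f j)
    (hfe : ∀ j ∈ S, ∀ B : Set X, MeasurableSet[mY] B → ∫ x in B, (f j x - e j x) ∂μ = 0) :
    ∀ᵐ x ∂μ, ∀ w : ℤ → ℂ, (∃ C : ℝ, ∀ n, ‖w n‖ ≤ C) → Deterministic w →
      Tendsto (fun N : ℕ => ((2 * N + 1 : ℕ) : ℂ)⁻¹ *
        ∑ n ∈ Finset.Icc (-(N : ℤ)) (N : ℤ), w n * (∏ j, f j (Φ (q j n) x) -
          ∏ j, e j (Φ (q j n) x))) atTop (𝓝 0) := by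
  have hgood' : ∀ j, AEConv μ fun n => (Φ (q j n) : X → X) := by
    intro j
    rcases hgood j with ⟨b, hb⟩ | h
    · simp only [hb]
      exact good_zpow hK.fl b
    · exact h
  rcases S.eq_empty_or_nonempty with hS | hS
  · subst hS
    refine Eventually.of_forall fun x w _ _ => ?_
    have : ∀ n : ℤ, w n * (∏ j, f j (Φ (q j n) x) - ∏ j, e j (Φ (q j n) x)) = 0 := by
      intro n
      rw [Finset.prod_congr rfl fun j _ => by rw [← hef j (Finset.notMem_empty j)], sub_self,
        mul_zero]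
    simp only [this, Finset.sum_const_zero, mul_zero]
    exact tendsto_const_nhds
  obtain ⟨s₀, hs₀⟩ : ∃ s₀ : G, 0 < ℓ s₀ := by
    obtain ⟨v, hv⟩ := hS
    have h1 : ∃ n : ℤ, ℓ (q v n) ≠ 0 := by
      by_contra hcon
      push Not at hcon
      rcases poly_tendsto (hS0 v hv) with h | h
      · have h2 : (fun n : ℕ => (lam v).eval (n : ℝ)) = fun _ => 0 := by
          funext n
          have := hcon n
          rw [hlam] at this
          exact_mod_cast this
        rw [h2] at h
        exact not_tendsto_const_atTop _ _ h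
      · have h2 : (fun n : ℕ => -(lam v).eval (n : ℝ)) = fun _ => 0 := by
          funext n
          have := hcon n
          rw [hlam] at this
          rw [neg_eq_zero]
          exact_mod_cast this
        rw [h2] at h
        exact not_tendsto_const_atTop _ _ h
    obtain ⟨n, hn⟩ := h1
    rcases lt_or_gt_of_ne hn with h | h
    · exact ⟨(q v n)⁻¹, by rw [hK.filt.inv]; linarith⟩
    · exact ⟨q v n, h⟩
  have hpos : Tendsto (fun n : ℕ => (n : ℤ)) atTop cofinite := by
    rw [← Nat.cofinite_eq_atTop]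
    exact Nat.cast_injective.tendsto_cofinite
  have hneg : Tendsto (fun n : ℕ => -(n : ℤ)) atTop cofinite := by
    rw [← Nat.cofinite_eq_atTop]
    exact (neg_injective.comp Nat.cast_injective).tendsto_cofinite
  have h1 := wwc_char hK hs₀ (p := fun n j => q j n) (S := S)
    (lev_poly (lam := lam) (fun n j => by rw [hlam]; simp) hS0 hS1 (fun v hv u hu => by
      have := (hS2 v hv u hu).comp hpos
      refine this.congr fun n => ?_
      simp))
    (fun j h hm hb => (hgood' j h hm hb).mono fun x hx => hx.1) hf he heY hef hfe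
  have hcomp : ∀ p : Polynomial ℝ, (p.comp (-Polynomial.X)).natDegree = p.natDegree := by
    intro p
    rw [Polynomial.natDegree_comp, Polynomial.natDegree_neg, Polynomial.natDegree_X, mul_one]
  have h2 := wwc_char hK hs₀ (p := fun n j => q j (-(n : ℤ))) (S := S)
    (lev_poly (lam := fun j => (lam j).comp (-Polynomial.X))
      (fun n j => by rw [hlam, Polynomial.eval_comp]; simp)
      (fun v hv => by
        show 0 < ((lam v).comp (-Polynomial.X)).natDegree
        rw [hcomp]
        exact hS0 v hv)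
      (fun v hv w hw hvw => by
        show 0 < ((lam v).comp (-Polynomial.X) - (lam w).comp (-Polynomial.X)).natDegree
        rw [← Polynomial.sub_comp, hcomp]
        exact hS1 v hv w hw hvw)
      (fun v hv u hu => by
        have := (hS2 v hv u hu).comp hneg
        refine this.congr fun n => ?_
        simp [Polynomial.eval_comp]))
    (fun j h hm hb => (hgood' j h hm hb).mono fun x hx => hx.2) hf he heY hef hfe
  filter_upwards [h1, h2] with x hx1 hx2 w hw hdet
  obtain ⟨C, hC⟩ := hw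
  refine two_sided (F := fun n => w n * (∏ j, f j (Φ (q j n) x) - ∏ j, e j (Φ (q j n) x)))
    (hx1 (fun n => w n) ⟨C, fun n => hC _⟩ hdet.1)
    (hx2 (fun n => w (-(n : ℤ))) ⟨C, fun n => hC _⟩ hdet.2)

/-- the names of the inverse map -/
theorem hn_inv {T T' : X → X} (hT : MeasurePreserving T μ μ)
    (hT' : Measurable T') (h : ∀ x, T' (T x) = x)
    {r : ℕ} {α : X → Fin r} (hα : Measurable α) (n : ℕ) : Hn μ T' α n = Hn μ T α n := by
  classical
  have hit : ∀ k x, T'^[k] (T^[k] x) = x := by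
    intro k
    induction k with
    | zero => intro x; rfl
    | succ k ih =>
      intro x
      rw [Function.iterate_succ_apply, Function.iterate_succ_apply', h, ih]
  have key : ∀ w : Fin n → Fin r, μ.real (nm T' α n ⁻¹' {w}) =
      μ.real (nm T α n ⁻¹' {fun i => w (Fin.rev i)}) := by
    intro w
    have hms : MeasurableSet (nm T' α n ⁻¹' {w}) :=
      nm_meas hT' hα n (measurableSet_singleton _)
    have h1 := (hT.iterate (n - 1)).measureReal_preimage hms.nullMeasurableSet
    rw [← h1]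
    congr 1
    ext x
    simp only [Set.mem_preimage, Set.mem_singleton_iff]
    have e : ∀ i : Fin n, T'^[(i : ℕ)] (T^[n - 1] x) = T^[(Fin.rev i : Fin n)] x := by
      intro i
      have hi := i.2
      have h2 : n - 1 = (i : ℕ) + (Fin.rev i : Fin n) := by
        rw [Fin.val_rev]
        omega
      rw [h2, Function.iterate_add_apply, hit]
    constructor
    · intro hx
      funext i
      have h3 := congrFun hx (Fin.rev i)
      show α (T^[(i : ℕ)] x) = w (Fin.rev i)
      rw [← h3]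
      show _ = α (T'^[(Fin.rev i : ℕ)] (T^[n - 1] x))
      rw [e, Fin.rev_rev]
    · intro hx
      funext i
      have h3 := congrFun hx (Fin.rev i)
      show α (T'^[(i : ℕ)] (T^[n - 1] x)) = w i
      rw [e]
      have h4 : w (Fin.rev (Fin.rev i)) = w i := by rw [Fin.rev_rev]
      rw [← h4]
      exact h3
  unfold Hn
  rw [Finset.sum_congr rfl fun w _ => by rw [key w]]
  refine Fintype.sum_equiv (Equiv.arrowCongr Fin.revPerm (Equiv.refl (Fin r))) _ _ fun w => ?_
  congr 3

/-- **Products along maps of zero entropy are deterministic weights.** -/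
theorem det_products {k : ℕ} {R : Fin k → Equiv.Perm X}
    (hR : ∀ i, MeasurePreserving (R i) μ μ ∧ MeasurePreserving ((R i)⁻¹ : Equiv.Perm X) μ μ ∧
      ZeroEntropy μ (R i)) {g : Fin k → X → ℂ} (hg : ∀ i, @BM X mX (g i)) :
    ∀ᵐ x ∂μ, (∃ C : ℝ, ∀ n : ℤ, ‖∏ i, g i ((R i ^ n : Equiv.Perm X) x)‖ ≤ C) ∧
      Deterministic fun n : ℤ => ∏ i, g i ((R i ^ n : Equiv.Perm X) x) := by
  have h1 : ∀ᵐ x ∂μ, ∀ i, Det (fun n : ℕ => g i ((R i : X → X)^[n] x)) := by
    rw [ae_all_iff]
    intro i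
    exact det_orbit (hR i).1 (hR i).2.2 (hg i).1 (hg i).2
  have h2 : ∀ᵐ x ∂μ, ∀ i, Det (fun n : ℕ => g i (((R i)⁻¹ : Equiv.Perm X)^[n] x)) := by
    rw [ae_all_iff]
    intro i
    refine det_orbit (hR i).2.1 (fun r α hα => ?_) (hg i).1 (hg i).2
    have h3 := (hR i).2.2 r α hα
    refine h3.congr fun n => ?_
    rw [hn_inv (hR i).1 (hR i).2.1.measurable (fun x => Equiv.symm_apply_apply (R i) x) hα n]
  choose C hC using fun i => (hg i).2
  filter_upwards [h1, h2] with x hx1 hx2
  refine ⟨⟨∏ i, C i, fun n => ?_⟩, ?_, ?_⟩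
  · rw [norm_prod]
    exact Finset.prod_le_prod (fun _ _ => norm_nonneg _) fun i _ => hC i _
  · have h3 := (det_prod Finset.univ (w := fun i n => g i ((R i : X → X)^[n] x))
      (fun i _ => hx1 i) (fun i _ => ⟨C i, fun n => hC i _⟩)).1
    have e : (fun n : ℕ => ∏ i, g i ((R i ^ (n : ℤ) : Equiv.Perm X) x)) =
        fun n => ∏ i, g i ((R i : X → X)^[n] x) := by
      funext n
      refine Finset.prod_congr rfl fun i _ => ?_
      rw [zpow_natCast, Equiv.Perm.coe_pow]
    show Det (fun n : ℕ => ∏ i, g i ((R i ^ (n : ℤ) : Equiv.Perm X) x))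
    rw [e]
    exact h3
  · have h3 := (det_prod Finset.univ (w := fun i n => g i (((R i)⁻¹ : Equiv.Perm X)^[n] x))
      (fun i _ => hx2 i) (fun i _ => ⟨C i, fun n => hC i _⟩)).1
    have e : (fun n : ℕ => ∏ i, g i ((R i ^ (-(n : ℤ)) : Equiv.Perm X) x)) =
        fun n => ∏ i, g i (((R i)⁻¹ : Equiv.Perm X)^[n] x) := by
      funext n
      refine Finset.prod_congr rfl fun i _ => ?_
      rw [zpow_neg, zpow_natCast, ← inv_pow, Equiv.Perm.coe_pow]
    show Det (fun n : ℕ => ∏ i, g i ((R i ^ (-(n : ℤ)) : Equiv.Perm X) x))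
    rw [e]
    exact h3

end Pool.Agent.W5h42.KW
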