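import Pool.Agent.TH784.KE.Line
import Pool.Agent.W5h42.KW.Defs

/-!
# Exponential inequalities along sequences of group elements whose levels are eventually monotone
-/

set_option autoImplicit false
set_option linter.unusedSectionVars false

open MeasureTheory Filter Topology

noncomputable section

namespace Pool.Agent.W5h42.KW

open Pool.Agent.TH784.KE

variable {X : Type*} {mA mY mX : MeasurableSpace X} {μ : Measure X} [IsProbabilityMeasure μ]
variable {G : Type*} [Group G]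
variable {Φ : G →* Equiv.Perm X} {ℓ : G → ℝ}
variable {J : Type*} [DecidableEq J]

/-- The functions `DD` are successively orthogonal along positions with separated levels. -/
theorem orth_seq (hFl : Flow μ Φ) (hA : Filt mX mA Φ ℓ) (hY : Base mY mA Φ) {V : Finset J}
    {v : J} (hv : v ∈ V) {p : ℕ → J → G}
    {F H : J → X → ℝ} {W : ℕ → X → ℝ} {r s : G} {R : ℝ}
    (hsr : ℓ s ≤ ℓ r) (hR : ℓ r - ℓ s ≤ R) (hR0 : 0 ≤ R)
    (hF : ∀ w ∈ V, Measurable[cm mA Φ r] (F w) ∧ ∀ x, |F w x| ≤ 1)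
    (hH : CE μ (cm mA Φ s) (F v) (H v)) (hW : ∀ m, Measurable[mY] (W m) ∧ ∀ x, |W m x| ≤ 1)
    (rk : ℕ → ℤ) (M : Finset ℕ)
    (hM : ∀ i ∈ M, ∀ j ∈ M, rk j < rk i → ℓ (p j v) + R ≤ ℓ (p i v)) :
    Orth μ rk M fun m x => DD V Φ ℓ R F H (W m) (p m) v x / 2 := by
  classical
  intro i hi M' hM' hlt c
  by_cases htop : top V ℓ R (p i) v
  swap
  · have e : ∀ x, DD V Φ ℓ R F H (W i) (p i) v x = 0 := by
      intro x
      unfold DD
      rw [if_neg htop]
    simp only [e, zero_div, zero_mul, integral_zero]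
  set t : G := s * p i v with ht
  have hpast : ∀ j ∈ M', Measurable[cm mA Φ t]
      (DD V Φ ℓ R F H (W j) (p j) v) := by
    intro j hj
    refine DD_past hA hY hv hsr hR0 (fun w hw => (hF w hw).1) hH.1 (hW j).1 ?_
    have h2 := hM i hi j (hM' hj) (hlt j hj)
    rw [ht, hA.hom]
    linarith
  have hexp : Measurable[cm mA Φ t] fun x => Real.exp (c * ∑ j ∈ M',
      DD V Φ ℓ R F H (W j) (p j) v x / 2) := by
    have h1 : Measurable[cm mA Φ t] fun x => ∑ j ∈ M',
        DD V Φ ℓ R F H (W j) (p j) v x / 2 :=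
      Finset.measurable_fun_sum _ fun j hj => (hpast j hj).div_const 2
    exact (h1.const_mul c).exp
  have hprod : Measurable[cm mA Φ t] fun x => ∏ w ∈ V.erase v, F w (Φ (p i w) x) := by
    refine Finset.measurable_fun_prod _ fun w hw => ?_
    refine (meas_shift _ (hF w (Finset.mem_of_mem_erase hw)).1).mono
      (cm_mono hA ?_) le_rfl
    have h9 : ℓ (p i w) + R ≤ ℓ (p i v) :=
      htop w (Finset.mem_of_mem_erase hw) (Finset.ne_of_mem_erase hw)
    rw [ht, hA.hom, hA.hom]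
    linarith
  have hWm : Measurable[cm mA Φ t] (W i) := (hW i).1.mono (base_le hY t) le_rfl
  have hfm : Measurable (F v) := (hF v hv).1.mono (cm_le hFl hA r) le_rfl
  have hb : ∀ x, |((∏ w ∈ V.erase v, F w (Φ (p i w) x)) * W i x) *
      Real.exp (c * ∑ j ∈ M', DD V Φ ℓ R F H (W j) (p j) v x / 2)| ≤
      1 * Real.exp (|c| * M'.card) := by
    intro x
    rw [abs_mul, abs_mul, abs_of_pos (Real.exp_pos _)]
    have h2 := prod_abs_le (Φ := Φ) (V := V.erase v) (F := F)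
      (fun w hw => (hF w (Finset.mem_of_mem_erase hw)).2) (p i) x
    have h3 := (hW i).2 x
    have h4 : |∏ w ∈ V.erase v, F w (Φ (p i w) x)| * |W i x| ≤ 1 := by
      calc _ ≤ (1 : ℝ) * 1 := mul_le_mul h2 h3 (abs_nonneg _) zero_le_one
        _ = 1 := one_mul 1
    refine mul_le_mul h4 ?_ (Real.exp_pos _).le zero_le_one
    apply Real.exp_le_exp.2
    refine (le_abs_self _).trans ?_
    rw [abs_mul]
    refine mul_le_mul_of_nonneg_left ?_ (abs_nonneg _)
    refine (Finset.abs_sum_le_sum_abs _ _).trans ?_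
    refine (Finset.sum_le_sum (g := fun _ => (1 : ℝ)) fun j hj => ?_).trans (by simp)
    rw [abs_div, abs_two]
    have := DD_abs (Φ := Φ) (ℓ := ℓ) (R := R) hv (fun w hw => (hF w hw).2) hH.2.1 (hW j).2
      (p j) x
    linarith
  have key := orth_shift hFl hA hfm hH (p i v) ((hprod.mul hWm).mul hexp) hb
  have e : ∀ x, DD V Φ ℓ R F H (W i) (p i) v x / 2 *
      Real.exp (c * ∑ j ∈ M', DD V Φ ℓ R F H (W j) (p j) v x / 2) =
      2⁻¹ * ((F v (Φ (p i v) x) - H v (Φ (p i v) x)) *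
        ((((∏ w ∈ V.erase v, F w (Φ (p i w) x)) * W i x)) *
        Real.exp (c * ∑ j ∈ M', DD V Φ ℓ R F H (W j) (p j) v x / 2))) := by
    intro x
    conv_lhs =>
      enter [1, 1]
      unfold DD
    rw [if_pos htop]
    ring
  simp only [e]
  rw [integral_const_mul]
  refine mul_eq_zero_of_right _ ?_
  exact key

/-- levels that eventually increase, or eventually decrease, by at least `c` in each step -/
def Steps (a : ℕ → ℝ) (c : ℝ) (n₀ : ℕ) : Prop :=
  (∀ m, n₀ ≤ m → a m + c ≤ a (m + 1)) ∨ (∀ m, n₀ ≤ m → a (m + 1) + c ≤ a m)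

theorem steps_up {a : ℕ → ℝ} {c : ℝ} {n₀ : ℕ} (h : ∀ m, n₀ ≤ m → a m + c ≤ a (m + 1)) :
    ∀ (j : ℕ), n₀ ≤ j → ∀ k : ℕ, a j + k * c ≤ a (j + k) := by
  intro j hj k
  induction k with
  | zero => simp
  | succ k ih =>
    have h1 := h (j + k) (by omega)
    rw [← add_assoc]
    push_cast
    linarith

theorem seq_bound (hFl : Flow μ Φ) (hA : Filt mX mA Φ ℓ) (hY : Base mY mA Φ) {V : Finset J}
    {v : J} (hv : v ∈ V) {p : ℕ → J → G} {c : ℝ} {n₀ : ℕ} (hc : 0 < c)
    (hp : Steps (fun m => ℓ (p m v)) c n₀)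
    {F H : J → X → ℝ} {W : ℕ → X → ℝ} {r s : G} {R : ℝ}
    (hsr : ℓ s ≤ ℓ r) (hR : ℓ r - ℓ s ≤ R) (hR0 : 0 ≤ R)
    (hF : ∀ w ∈ V, Measurable[cm mA Φ r] (F w) ∧ ∀ x, |F w x| ≤ 1)
    (hH : CE μ (cm mA Φ s) (F v) (H v)) (hW : ∀ m, Measurable[mY] (W m) ∧ ∀ x, |W m x| ≤ 1)
    {L : ℕ} (hL : 0 < L) (hβ : R ≤ L * c) {N : ℕ} (hN : 0 < N)
    {t : ℝ} (ht : 0 ≤ t) :
    μ.real {x | t ≤ |∑ m ∈ Finset.Ico n₀ N,
      DD V Φ ℓ R F H (W m) (p m) v x|} ≤
      L * (2 * Real.exp (-((t / (2 * L)) ^ 2 / (2 * N)))) := by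
  classical
  have hL' : (0 : ℝ) < L := by exact_mod_cast hL
  have hmeas : ∀ m, Measurable (DD V Φ ℓ R F H (W m) (p m) v) := fun m =>
    (DD_past hA hY hv hsr hR0 (fun w hw => (hF w hw).1) hH.1 (hW m).1
      (t := r * p m v) (hA.hom _ _).ge).mono (cm_le hFl hA _) le_rfl
  have key : ∀ ρ ∈ Finset.range L, μ.real {x | t / (2 * L) ≤
      |∑ m ∈ (Finset.Ico n₀ N).filter (fun m => m % L = ρ),
        DD V Φ ℓ R F H (W m) (p m) v x / 2|} ≤
      2 * Real.exp (-((t / (2 * L)) ^ 2 / (2 * N))) := by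
    intro ρ _
    have hcard : ((Finset.Ico n₀ N).filter (fun m => m % L = ρ)).card ≤ N := by
      refine (Finset.card_filter_le _ _).trans ?_
      rw [Nat.card_Ico]
      omega
    have hM : ∀ m ∈ (Finset.Ico n₀ N).filter (fun m => m % L = ρ), n₀ ≤ m ∧ m % L = ρ :=
      fun m hm => ⟨(Finset.mem_Ico.1 (Finset.mem_filter.1 hm).1).1, (Finset.mem_filter.1 hm).2⟩
    have hb : ∀ m ∈ (Finset.Ico n₀ N).filter (fun m => m % L = ρ), ∀ x,
        |DD V Φ ℓ R F H (W m) (p m) v x / 2| ≤ 1 := by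
      intro m _ x
      rw [abs_div, abs_two]
      have := DD_abs (Φ := Φ) (ℓ := ℓ) (R := R) hv (fun w hw => (hF w hw).2) hH.2.1 (hW m).2
        (p m) x
      linarith
    have hmm : ∀ m ∈ (Finset.Ico n₀ N).filter (fun m => m % L = ρ), Measurable fun x =>
        DD V Φ ℓ R F H (W m) (p m) v x / 2 :=
      fun m _ => (hmeas m).div_const 2
    have hmod : ∀ i j : ℕ, j < i → i % L = j % L → ∃ k : ℕ, i = j + k ∧ L ≤ k := by
      intro i j hij h
      have h1 : L ∣ i - j := (Nat.modEq_iff_dvd' hij.le).1 h.symm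
      have h2 := Nat.le_of_dvd (Nat.sub_pos_of_lt hij) h1
      exact ⟨i - j, by omega, h2⟩
    rcases hp with hup | hdn
    · have hinj : Function.Injective fun m : ℕ => (m : ℤ) := Nat.cast_injective
      refine azuma hinj _ hmm hb ?_ (div_nonneg ht (by positivity)) hN hcard
      refine orth_seq hFl hA hY hv hsr hR hR0 hF hH hW _ _ ?_
      intro i hi j hj hij
      have hij' : j < i := by exact_mod_cast hij
      obtain ⟨k, hk, hLk⟩ := hmod i j hij' ((hM i hi).2.trans (hM j hj).2.symm)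
      have h1 := steps_up hup j (hM j hj).1 k
      have h2 : (L : ℝ) * c ≤ k * c :=
        mul_le_mul_of_nonneg_right (by exact_mod_cast hLk) hc.le
      rw [hk]
      linarith
    · have hinj : Function.Injective fun m : ℕ => -(m : ℤ) := fun a b h => by
        have : (a : ℤ) = b := neg_injective h
        exact_mod_cast this
      refine azuma hinj _ hmm hb ?_ (div_nonneg ht (by positivity)) hN hcard
      refine orth_seq hFl hA hY hv hsr hR hR0 hF hH hW _ _ ?_
      intro i hi j hj hij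
      have hij' : i < j := by
        have : (i : ℤ) < j := by linarith
        exact_mod_cast this
      obtain ⟨k, hk, hLk⟩ := hmod j i hij' ((hM j hj).2.trans (hM i hi).2.symm)
      have h1 := steps_up (a := fun m => -ℓ (p m v)) (c := c) (n₀ := n₀)
        (fun m hm => by have := hdn m hm; simp only at this; linarith) i (hM i hi).1 k
      have h2 : (L : ℝ) * c ≤ k * c :=
        mul_le_mul_of_nonneg_right (by exact_mod_cast hLk) hc.le
      rw [hk]
      linarith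
  have hsub : {x | t ≤ |∑ m ∈ Finset.Ico n₀ N,
      DD V Φ ℓ R F H (W m) (p m) v x|} ⊆
      ⋃ ρ ∈ Finset.range L, {x | t / (2 * L) ≤
      |∑ m ∈ (Finset.Ico n₀ N).filter (fun m => m % L = ρ),
        DD V Φ ℓ R F H (W m) (p m) v x / 2|} := by
    intro x hx
    by_contra hcon
    simp only [Set.mem_iUnion, Set.mem_ofPred_eq, not_exists, not_le] at hcon
    have h1 : ∑ m ∈ Finset.Ico n₀ N, DD V Φ ℓ R F H (W m) (p m) v x =
        2 * ∑ ρ ∈ Finset.range L, ∑ m ∈ (Finset.Ico n₀ N).filter (fun m => m % L = ρ),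
          DD V Φ ℓ R F H (W m) (p m) v x / 2 := by
      rw [Finset.sum_fiberwise_of_maps_to (s := Finset.Ico n₀ N) (t := Finset.range L)
        (g := fun m => m % L) (fun m _ => Finset.mem_range.2 (Nat.mod_lt _ hL)), Finset.mul_sum]
      refine Finset.sum_congr rfl fun m _ => ?_
      ring
    have h2 : |∑ m ∈ Finset.Ico n₀ N, DD V Φ ℓ R F H (W m) (p m) v x| < t := by
      rw [h1, abs_mul, abs_two]
      have h3 : |∑ ρ ∈ Finset.range L, ∑ m ∈ (Finset.Ico n₀ N).filter (fun m => m % L = ρ),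
          DD V Φ ℓ R F H (W m) (p m) v x / 2| < L * (t / (2 * L)) := by
        refine (Finset.abs_sum_le_sum_abs _ _).trans_lt ?_
        refine (Finset.sum_lt_sum_of_nonempty ⟨0, Finset.mem_range.2 hL⟩
          fun ρ hρ => hcon ρ hρ).trans_le ?_
        rw [Finset.sum_const, Finset.card_range, nsmul_eq_mul]
      calc 2 * _ < 2 * (L * (t / (2 * L))) := by linarith
        _ = t := by field_simp
    exact absurd hx (not_le.2 h2)
  refine (measureReal_mono hsub (measure_ne_top _ _)).trans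
    ((measureReal_biUnion_finset_le _ _).trans ?_)
  refine (Finset.sum_le_sum key).trans ?_
  rw [Finset.sum_const, Finset.card_range, nsmul_eq_mul]

/-- An exponential inequality for all sums with coefficients in `[-1, 1]`. -/
def ExpBd (μ : Measure X) (D : ℕ → X → ℝ) (K κ : ℝ) : Prop :=
  ∀ a : ℕ → ℝ, (∀ n, |a n| ≤ 1) → ∀ N : ℕ, 0 < N → ∀ t : ℝ, 0 ≤ t →
    μ.real {x | t ≤ |∑ n ∈ Finset.range N, a n * D n x|} ≤ K * Real.exp (-(κ * t ^ 2 / N))

theorem DD_smul {V : Finset J} {R : ℝ} {F H : J → X → ℝ} {W : X → ℝ} {p : J → G} {v : J}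
    (a : ℝ) (x : X) : DD V Φ ℓ R F H (fun y => a * W y) p v x = a * DD V Φ ℓ R F H W p v x := by
  unfold DD
  split_ifs
  · ring
  · ring

/-- The exponential inequality along a sequence. -/
theorem expBd_seq (hFl : Flow μ Φ) (hA : Filt mX mA Φ ℓ) (hY : Base mY mA Φ) {V : Finset J}
    {v : J} (hv : v ∈ V) {p : ℕ → J → G} {c : ℝ} {n₀ : ℕ} (hc : 0 < c)
    (hp : Steps (fun m => ℓ (p m v)) c n₀)
    {F H : J → X → ℝ} {W : ℕ → X → ℝ} {r s : G} {R : ℝ}
    (hsr : ℓ s ≤ ℓ r) (hR : ℓ r - ℓ s ≤ R) (hR0 : 0 ≤ R)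
    (hF : ∀ w ∈ V, Measurable[cm mA Φ r] (F w) ∧ ∀ x, |F w x| ≤ 1)
    (hH : CE μ (cm mA Φ s) (F v) (H v)) (hW : ∀ m, Measurable[mY] (W m) ∧ ∀ x, |W m x| ≤ 1) :
    ∃ K κ : ℝ, 0 < κ ∧ ExpBd μ (fun n x => if n₀ ≤ n then DD V Φ ℓ R F H (W n) (p n) v x else 0)
      K κ := by
  obtain ⟨L, hL1, hL2⟩ : ∃ L : ℕ, 0 < L ∧ R ≤ L * c := by
    obtain ⟨L, hL⟩ := exists_nat_ge (R / c)
    refine ⟨L + 1, Nat.succ_pos _, ?_⟩
    rw [div_le_iff₀ hc] at hL
    push_cast
    linarith
  have hL' : (0 : ℝ) < L := by exact_mod_cast hL1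
  refine ⟨L * 2, 1 / (8 * (L : ℝ) ^ 2), by positivity, ?_⟩
  intro a ha N hN t ht
  have hW' : ∀ m, Measurable[mY] (fun x => a m * W m x) ∧ ∀ x, |a m * W m x| ≤ 1 := by
    intro m
    refine ⟨(hW m).1.const_mul _, fun x => ?_⟩
    rw [abs_mul]
    calc |a m| * |W m x| ≤ 1 * 1 := mul_le_mul (ha m) ((hW m).2 x) (abs_nonneg _) zero_le_one
      _ = 1 := one_mul 1
  have h := seq_bound hFl hA hY hv hc hp (W := fun m x => a m * W m x) hsr hR hR0 hF hH hW'
    hL1 hL2 hN ht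
  have e : ∀ x, ∑ n ∈ Finset.range N, a n *
      (if n₀ ≤ n then DD V Φ ℓ R F H (W n) (p n) v x else 0) =
      ∑ m ∈ Finset.Ico n₀ N, DD V Φ ℓ R F H (fun x => a m * W m x) (p m) v x := by
    intro x
    have e1 : Finset.Ico n₀ N = (Finset.range N).filter fun n => n₀ ≤ n := by
      ext n
      simp only [Finset.mem_Ico, Finset.mem_filter, Finset.mem_range]
      tauto
    rw [e1, Finset.sum_filter]
    refine Finset.sum_congr rfl fun n _ => ?_
    split_ifs
    · rw [DD_smul]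
    · rw [mul_zero]
  simp only [e]
  refine h.trans (le_of_eq ?_)
  rw [mul_assoc]
  congr 3
  have hN' : (0 : ℝ) < N := by exact_mod_cast hN
  field_simp
  ring

end Pool.Agent.W5h42.KW
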