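import Pool.Agent.W5h42.KW.Union
import Pool.Agent.TH784.KE.Multi

/-!
# Products with a highest slot of vanishing expectation on the base
-/

set_option autoImplicit false
set_option linter.unusedSectionVars false

open MeasureTheory Filter Topology

noncomputable section

namespace Pool.Agent.W5h42.KW

open Pool.Agent.TH784.KE

section gen

variable {X : Type*} {mX : MeasurableSpace X} {μ : Measure X} [IsProbabilityMeasure μ]

/-- The class of processes is closed. -/
theorem ww_closed {P : ℕ → X → ℝ}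
    (h : ∀ ε : ℝ, 0 < ε → ∃ (P' : ℕ → X → ℝ) (T : X → ℝ), WW μ P' ∧ Integrable T μ ∧
      0 ≤ᵐ[μ] T ∧ ∫ x, T x ∂μ ≤ ε ∧ ∀ᵐ x ∂μ, ∀ δ : ℝ, 0 < δ → ∀ᶠ N : ℕ in atTop,
        ∑ n ∈ Finset.range N, |P n x - P' n x| ≤ (T x + δ) * N) : WW μ P := by
  have key : ∀ δ : ℝ, 0 < δ → ∀ᵐ x ∂μ, ∀ w : ℕ → ℝ, (∀ n, |w n| ≤ 1) → Det w →
      ∀ᶠ N : ℕ in atTop, |(∑ n ∈ Finset.range N, w n * P n x) / N| ≤ δ := by
    intro δ hδ
    rw [ae_iff]
    refine le_antisymm ?_ bot_le
    refine ENNReal.le_of_forall_pos_le_add fun ε hε _ => ?_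
    rw [zero_add]
    obtain ⟨P', T, hP', hTi, hT0, hTε, hT⟩ := h (ε * (δ / 4)) (by positivity)
    have hmark := mul_meas_ge_le_integral_of_nonneg hT0 hTi (δ / 4)
    have hmark' : μ.real {x | δ / 4 ≤ T x} ≤ ε := by
      have h1 := hmark.trans hTε
      have h2 : (δ / 4) * μ.real {x | δ / 4 ≤ T x} ≤ (δ / 4) * ε := by
        rw [mul_comm (δ / 4) (ε : ℝ)]
        exact h1
      exact le_of_mul_le_mul_left h2 (by positivity)
    have hsub : ∀ᵐ x ∂μ, x ∈ {x | ¬ ∀ w : ℕ → ℝ, (∀ n, |w n| ≤ 1) → Det w →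
        ∀ᶠ N : ℕ in atTop, |(∑ n ∈ Finset.range N, w n * P n x) / N| ≤ δ} →
        x ∈ {x | δ / 4 ≤ T x} := by
      filter_upwards [hP', hT] with x hx1 hx2 hx3
      show δ / 4 ≤ T x
      by_contra hcon
      rw [not_le] at hcon
      apply hx3
      intro w hw hdet
      have h1 := (hx1 w hw hdet).abs
      rw [abs_zero] at h1
      have h2 := (tendsto_order.1 h1).2 (δ / 4) (by positivity)
      filter_upwards [h2, hx2 (δ / 4) (by positivity), eventually_gt_atTop 0] with N hN1 hN2 hN3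
      have hN : (0 : ℝ) < N := by exact_mod_cast hN3
      rw [abs_div, Nat.abs_cast, div_le_iff₀ hN]
      rw [abs_div, Nat.abs_cast, div_lt_iff₀ hN] at hN1
      have e : ∑ n ∈ Finset.range N, w n * P n x = ∑ n ∈ Finset.range N, w n * P' n x +
          ∑ n ∈ Finset.range N, w n * (P n x - P' n x) := by
        rw [← Finset.sum_add_distrib]
        refine Finset.sum_congr rfl fun n _ => ?_
        ring
      have h3 : |∑ n ∈ Finset.range N, w n * (P n x - P' n x)| ≤ (T x + δ / 4) * N := by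
        refine (Finset.abs_sum_le_sum_abs _ _).trans (le_trans ?_ hN2)
        refine Finset.sum_le_sum fun n _ => ?_
        rw [abs_mul]
        calc |w n| * |P n x - P' n x| ≤ 1 * |P n x - P' n x| :=
              mul_le_mul_of_nonneg_right (hw n) (abs_nonneg _)
          _ = _ := one_mul _
      rw [e]
      refine (abs_add_le _ _).trans ?_
      have h4 : (T x + δ / 4) * N ≤ (δ / 4 + δ / 4) * N :=
        mul_le_mul_of_nonneg_right (by linarith) hN.le
      nlinarith
    have h10 : μ {x | ¬ ∀ w : ℕ → ℝ, (∀ n, |w n| ≤ 1) → Det w →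
        ∀ᶠ N : ℕ in atTop, |(∑ n ∈ Finset.range N, w n * P n x) / N| ≤ δ} ≤
        μ {x | δ / 4 ≤ T x} :=
      measure_mono_ae hsub
    refine h10.trans ?_
    have h9 : μ {x | δ / 4 ≤ T x} = ENNReal.ofReal (μ.real {x | δ / 4 ≤ T x}) := by
      rw [measureReal_def, ENNReal.ofReal_toReal (measure_ne_top _ _)]
    rw [h9]
    calc ENNReal.ofReal (μ.real {x | δ / 4 ≤ T x}) ≤ ENNReal.ofReal (ε : ℝ) :=
          ENNReal.ofReal_le_ofReal hmark'
      _ = ε := ENNReal.ofReal_coe_nnreal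
  have hall := ae_all_iff.mpr fun i : ℕ => key (1 / ((i : ℝ) + 1)) (by positivity)
  filter_upwards [hall] with x hx w hw hdet
  rw [Metric.tendsto_nhds]
  intro ε hε
  obtain ⟨i, hi⟩ := exists_nat_one_div_lt hε
  filter_upwards [hx i w hw hdet] with N hN
  rw [Real.dist_eq, sub_zero]
  exact hN.trans_lt hi

/-- Averages of bounded measurable functions along the maps `g n` converge almost everywhere. -/
def Good (μ : Measure X) (g : ℕ → X → X) : Prop :=
  ∀ h : X → ℝ, Measurable h → (∃ C : ℝ, ∀ x, |h x| ≤ C) → ∀ᵐ x ∂μ, ∃ L : ℝ,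
    Tendsto (fun N : ℕ => (∑ n ∈ Finset.range N, h (g n x)) / N) atTop (𝓝 L)

theorem good_int {g : ℕ → X → X} (hg : Good μ g) (hmp : ∀ n, MeasurePreserving (g n) μ μ)
    {h : X → ℝ} (hm : Measurable h) (h0 : ∀ x, 0 ≤ h x) {C : ℝ} (hC : ∀ x, h x ≤ C) :
    ∃ T : X → ℝ, Integrable T μ ∧ 0 ≤ᵐ[μ] T ∧ ∫ x, T x ∂μ ≤ ∫ x, h x ∂μ ∧
      ∀ᵐ x ∂μ, ∀ δ : ℝ, 0 < δ → ∀ᶠ N : ℕ in atTop,
        ∑ n ∈ Finset.range N, h (g n x) ≤ (T x + δ) * N := by
  have habs : ∀ x, |h x| ≤ C := fun x => by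
    rw [abs_of_nonneg (h0 x)]
    exact hC x
  have hX : Nonempty X := by
    by_contra hne
    rw [not_nonempty_iff] at hne
    have h1 : μ Set.univ = 1 := measure_univ
    rw [Set.univ_eq_empty_iff.2 hne, measure_empty] at h1
    exact zero_ne_one h1
  have hC0 : 0 ≤ C := (abs_nonneg _).trans (habs hX.some)
  have hlim := hg h hm ⟨C, habs⟩
  classical
  let T : X → ℝ := fun x => if hx : ∃ L : ℝ,
    Tendsto (fun N : ℕ => (∑ n ∈ Finset.range N, h (g n x)) / N) atTop (𝓝 L) then hx.choose else 0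
  have hT : ∀ᵐ x ∂μ, Tendsto (fun N : ℕ => (∑ n ∈ Finset.range N, h (g n x)) / N) atTop
      (𝓝 (T x)) := by
    filter_upwards [hlim] with x hx
    simp only [T]
    rw [dif_pos hx]
    exact hx.choose_spec
  have hmN : ∀ N : ℕ, Measurable fun x => (∑ n ∈ Finset.range N, h (g n x)) / (N : ℝ) := fun N =>
    (Finset.measurable_fun_sum _ fun n _ => hm.comp (hmp n).measurable).div_const _
  have hbN : ∀ (N : ℕ) x, |(∑ n ∈ Finset.range N, h (g n x)) / (N : ℝ)| ≤ C := by
    intro N x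
    rcases Nat.eq_zero_or_pos N with h1 | h1
    · subst h1
      simpa using hC0
    · have hN : (0 : ℝ) < N := by exact_mod_cast h1
      rw [abs_div, Nat.abs_cast, div_le_iff₀ hN]
      refine (Finset.abs_sum_le_sum_abs _ _).trans ?_
      refine (Finset.sum_le_sum (g := fun _ => C) fun n _ => habs _).trans ?_
      rw [Finset.sum_const, Finset.card_range, nsmul_eq_mul, mul_comm]
  have hTm : AEStronglyMeasurable T μ := aestronglyMeasurable_of_tendsto_ae atTop
    (fun N => (hmN N).aestronglyMeasurable) hT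
  have hTi : Integrable T μ := by
    refine Integrable.of_bound hTm C ?_
    filter_upwards [hT] with x hx
    rw [Real.norm_eq_abs]
    exact le_of_tendsto hx.abs (Eventually.of_forall fun N => hbN N x)
  refine ⟨T, hTi, ?_, ?_, ?_⟩
  · filter_upwards [hT] with x hx
    exact ge_of_tendsto hx (Eventually.of_forall fun N =>
      div_nonneg (Finset.sum_nonneg fun n _ => h0 _) (Nat.cast_nonneg N))
  · have h1 := tendsto_integral_of_dominated_convergence (fun _ => C)
      (fun N => (hmN N).aestronglyMeasurable) (integrable_const _)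
      (fun N => Eventually.of_forall fun x => by
        rw [Real.norm_eq_abs]
        exact hbN N x) hT
    refine le_of_tendsto h1 ?_
    filter_upwards [eventually_gt_atTop 0] with N hN
    have hN' : (N : ℝ) ≠ 0 := by exact_mod_cast hN.ne'
    have hi : Integrable h μ := Integrable.of_bound hm.aestronglyMeasurable C
      (Eventually.of_forall fun x => by
        rw [Real.norm_eq_abs]
        exact habs x)
    have h2 : ∀ n, ∫ x, h (g n x) ∂μ = ∫ x, h x ∂μ := by
      intro m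
      have h3 := integral_map (μ := μ) (φ := g m) (f := h)
        (hmp m).measurable.aemeasurable hm.aestronglyMeasurable
      rw [(hmp m).map_eq] at h3
      exact h3.symm
    have h3 : ∀ n ∈ Finset.range N, Integrable (fun x => h (g n x)) μ := fun n _ =>
      (hmp n).integrable_comp_of_integrable hi
    rw [integral_div, integral_finsetSum _ h3, Finset.sum_congr rfl fun n _ => h2 n, Finset.sum_const, Finset.card_range, nsmul_eq_mul,
      mul_div_cancel_left₀ _ hN']
  · filter_upwards [hT] with x hx δ hδ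
    have h1 := (tendsto_order.1 hx).2 (T x + δ) (by linarith)
    filter_upwards [h1, eventually_gt_atTop 0] with N hN hN0
    have hN' : (0 : ℝ) < N := by exact_mod_cast hN0
    rw [div_lt_iff₀ hN'] at hN
    exact hN.le

theorem prod_diff {ι : Type*} [DecidableEq ι] (s : Finset ι) {a b : ι → ℝ}
    (ha : ∀ i ∈ s, |a i| ≤ 1)
    (hb : ∀ i ∈ s, |b i| ≤ 1) : |∏ i ∈ s, a i - ∏ i ∈ s, b i| ≤ ∑ i ∈ s, |a i - b i| := by
  induction s using Finset.induction_on with
  | empty => simp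
  | insert i s hi ih =>
    have ih' := ih (fun j hj => ha j (Finset.mem_insert_of_mem hj))
      (fun j hj => hb j (Finset.mem_insert_of_mem hj))
    rw [Finset.prod_insert hi, Finset.prod_insert hi, Finset.sum_insert hi]
    have e : a i * ∏ j ∈ s, a j - b i * ∏ j ∈ s, b j =
        (a i - b i) * ∏ j ∈ s, a j + b i * (∏ j ∈ s, a j - ∏ j ∈ s, b j) := by ring
    rw [e]
    refine (abs_add_le _ _).trans ?_
    rw [abs_mul, abs_mul]
    have h1 : |∏ j ∈ s, a j| ≤ 1 := by
      rw [Finset.abs_prod]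
      exact Finset.prod_le_one (fun _ _ => abs_nonneg _)
        fun j hj => ha j (Finset.mem_insert_of_mem hj)
    have h2 := hb i (Finset.mem_insert_self i s)
    refine add_le_add ?_ ?_
    · calc |a i - b i| * |∏ j ∈ s, a j| ≤ |a i - b i| * 1 :=
            mul_le_mul_of_nonneg_left h1 (abs_nonneg _)
        _ = _ := mul_one _
    · calc |b i| * |∏ j ∈ s, a j - ∏ j ∈ s, b j| ≤ 1 * |∏ j ∈ s, a j - ∏ j ∈ s, b j| :=
            mul_le_mul_of_nonneg_right h2 (abs_nonneg _)
        _ ≤ _ := by rw [one_mul]; exact ih'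

end gen

variable {X : Type*} {mA mY mX : MeasurableSpace X} {μ : Measure X} [IsProbabilityMeasure μ]
variable {G : Type*} [Group G]
variable {Φ : G →* Equiv.Perm X} {ℓ : G → ℝ}
variable {J : Type*} [DecidableEq J]

/-- functions measurable with respect to the past -/
theorem ww_level (hK : KExt μ mA mY Φ ℓ) {s₀ : G} (hs₀ : 0 < ℓ s₀) {V : Finset J} {v : J}
    (hv : v ∈ V) {p : ℕ → J → G} {c : ℝ} {n₀ : ℕ} (hc : 0 < c)
    (hp : Steps (fun m => ℓ (p m v)) c n₀)
    (hdiff : ∀ w ∈ V, w ≠ v → Tendsto (fun n => ℓ (p n v) - ℓ (p n w)) atTop atTop)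
    (hgood : Good μ fun n => (Φ (p n v) : X → X))
    {F : J → X → ℝ} {r : G} (hF : ∀ w ∈ V, Measurable[cm mA Φ r] (F w) ∧ ∀ x, |F w x| ≤ 1)
    (hVan : Van μ mY (F v)) {W : ℕ → X → ℝ}
    (hW : ∀ m, Measurable[mY] (W m) ∧ ∀ x, |W m x| ≤ 1) :
    WW μ fun n x => (∏ w ∈ V, F w (Φ (p n w) x)) * W n x := by
  classical
  have hFvm : Measurable (F v) := (hF v hv).1.mono (cm_le hK.fl hK.filt r) le_rfl
  refine ww_closed fun ε hε => ?_
  obtain ⟨s, hsr, hs⟩ := small_past hK.fl hK.filt hs₀ hK.tail hFvm (hF v hv).2 hVan hε r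
  obtain ⟨Hv, hHv, hHve⟩ := exists_CE (μ := μ) (cm_le hK.fl hK.filt s) hFvm (hF v hv).2
  set R : ℝ := ℓ r - ℓ s with hR
  have hR0 : 0 ≤ R := by linarith
  have hHvm : Measurable Hv := hHv.1.mono (cm_le hK.fl hK.filt s) le_rfl
  obtain ⟨K, κ, hκ, hexp⟩ := expBd_seq hK.fl hK.filt hK.base hv hc hp (H := fun _ => Hv)
    hsr le_rfl hR0 hF hHv hW
  obtain ⟨T, hTi, hT0, hTint, hT⟩ := good_int hgood (fun n => hK.fl _) (h := fun x => |Hv x|)
    hHvm.abs (fun x => abs_nonneg _) (C := 1) hHv.2.1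
  refine ⟨_, T, ww_of_expBd hκ hexp (C := 2) (by norm_num) ?_, hTi, hT0, ?_, ?_⟩
  · intro n x
    split_ifs
    · exact DD_abs hv (fun w hw => (hF w hw).2) hHv.2.1 (hW n).2 _ _
    · simp
  · refine hTint.trans (le_trans (le_of_eq ?_) hs)
    apply integral_congr_ae
    filter_upwards [hHve] with x hx
    rw [hx]
  · -- the top condition holds eventually
    have htop : ∀ᶠ n in atTop, top V ℓ R (p n) v := by
      have h1 : ∀ w ∈ V, ∀ᶠ n in atTop, w ≠ v → ℓ (p n w) + R ≤ ℓ (p n v) := by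
        intro w hw
        by_cases hwv : w = v
        · exact Eventually.of_forall fun n h => absurd hwv h
        · filter_upwards [(hdiff w hw hwv).eventually_ge_atTop R] with n hn _
          linarith
      have h2 := (Finset.eventually_all V).2 h1
      filter_upwards [h2] with n hn
      exact hn
    obtain ⟨n₁, hn₁⟩ := eventually_atTop.1 (htop.and (eventually_ge_atTop n₀))
    filter_upwards [hT] with x hx δ hδ
    have hlarge : ∀ᶠ N : ℕ in atTop, 3 * (n₁ : ℝ) ≤ δ / 2 * N := by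
      have : Tendsto (fun N : ℕ => δ / 2 * (N : ℝ)) atTop atTop :=
        tendsto_natCast_atTop_atTop.const_mul_atTop (by positivity)
      exact this.eventually_ge_atTop _
    filter_upwards [hx (δ / 2) (by positivity), hlarge] with N hN1 hN2
    have hpt : ∀ n, |(∏ w ∈ V, F w (Φ (p n w) x)) * W n x -
        (if n₀ ≤ n then DD V Φ ℓ R F (fun _ => Hv) (W n) (p n) v x else 0)| ≤
        |Hv (Φ (p n v) x)| + if n < n₁ then (3 : ℝ) else 0 := by
      intro n
      by_cases hn : n < n₁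
      · rw [if_pos hn]
        have h1 : |(∏ w ∈ V, F w (Φ (p n w) x)) * W n x| ≤ 1 := by
          rw [abs_mul]
          calc _ ≤ (1 : ℝ) * 1 := mul_le_mul (prod_abs_le (fun w hw => (hF w hw).2) _ _)
                ((hW n).2 x) (abs_nonneg _) zero_le_one
            _ = 1 := one_mul 1
        have h2 : |if n₀ ≤ n then DD V Φ ℓ R F (fun _ => Hv) (W n) (p n) v x else 0| ≤ 2 := by
          split_ifs
          · exact DD_abs hv (fun w hw => (hF w hw).2) hHv.2.1 (hW n).2 _ _
          · simp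
        refine (abs_sub _ _).trans ?_
        have := abs_nonneg (Hv (Φ (p n v) x))
        linarith
      · rw [if_neg hn, add_zero]
        obtain ⟨ht, hn0⟩ := hn₁ n (not_lt.1 hn)
        rw [if_pos hn0]
        have e : (∏ w ∈ V, F w (Φ (p n w) x)) * W n x -
            DD V Φ ℓ R F (fun _ => Hv) (W n) (p n) v x =
            Hv (Φ (p n v) x) * ((∏ w ∈ V.erase v, F w (Φ (p n w) x)) * W n x) := by
          unfold DD
          rw [if_pos ht, ← Finset.mul_prod_erase V _ hv]
          ring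
        rw [e, abs_mul, abs_mul]
        have h2 := prod_abs_le (Φ := Φ) (V := V.erase v) (F := F)
          (fun w hw => (hF w (Finset.mem_of_mem_erase hw)).2) (p n) x
        have h4 : |∏ w ∈ V.erase v, F w (Φ (p n w) x)| * |W n x| ≤ 1 := by
          calc _ ≤ (1 : ℝ) * 1 := mul_le_mul h2 ((hW n).2 x) (abs_nonneg _) zero_le_one
            _ = 1 := one_mul 1
        calc _ ≤ |Hv (Φ (p n v) x)| * 1 := mul_le_mul_of_nonneg_left h4 (abs_nonneg _)
          _ = _ := mul_one _
    refine (Finset.sum_le_sum fun n _ => hpt n).trans ?_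
    rw [Finset.sum_add_distrib]
    have h5 : ∑ n ∈ Finset.range N, (if n < n₁ then (3 : ℝ) else 0) ≤ 3 * n₁ := by
      rw [← Finset.sum_filter, Finset.sum_const, nsmul_eq_mul, mul_comm]
      refine mul_le_mul_of_nonneg_left ?_ (by norm_num)
      have h6 : ((Finset.range N).filter fun n => n < n₁) ⊆ Finset.range n₁ := by
        intro n hn
        exact Finset.mem_range.2 (Finset.mem_filter.1 hn).2
      have := Finset.card_le_card h6
      rw [Finset.card_range] at this
      exact_mod_cast this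
    have h7 : ∑ n ∈ Finset.range N, |Hv (Φ (p n v) x)| ≤ (T x + δ / 2) * N := hN1
    nlinarith

/-- **Products with a highest slot of vanishing expectation on the base.** -/
theorem ww_real (hK : KExt μ mA mY Φ ℓ) {s₀ : G} (hs₀ : 0 < ℓ s₀) {V : Finset J} {v : J}
    (hv : v ∈ V) {p : ℕ → J → G} {c : ℝ} {n₀ : ℕ} (hc : 0 < c)
    (hp : Steps (fun m => ℓ (p m v)) c n₀)
    (hdiff : ∀ w ∈ V, w ≠ v → Tendsto (fun n => ℓ (p n v) - ℓ (p n w)) atTop atTop)
    (hgood : ∀ w ∈ V, Good μ fun n => (Φ (p n w) : X → X))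
    {F : J → X → ℝ} (hF : ∀ w ∈ V, Measurable (F w)) (hFb : ∀ w ∈ V, ∀ x, |F w x| ≤ 1)
    (hVan : Van μ mY (F v)) {W : ℕ → X → ℝ}
    (hW : ∀ m, Measurable[mY] (W m) ∧ ∀ x, |W m x| ≤ 1) :
    WW μ fun n x => (∏ w ∈ V, F w (Φ (p n w) x)) * W n x := by
  classical
  refine ww_closed fun ε hε => ?_
  set η : ℝ := ε / (V.card + 1) with hη
  have hη0 : 0 < η := by positivity
  have happ : ∀ w : J, ∃ (r : G) (g : X → ℝ) (T : X → ℝ), w ∈ V →
      Measurable[cm mA Φ r] g ∧ (∀ x, |g x| ≤ 1) ∧ (Van μ mY (F w) → Van μ mY g) ∧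
      Integrable T μ ∧ 0 ≤ᵐ[μ] T ∧ ∫ x, T x ∂μ ≤ η ∧
      ∀ᵐ x ∂μ, ∀ δ : ℝ, 0 < δ → ∀ᶠ N : ℕ in atTop,
        ∑ n ∈ Finset.range N, |F w (Φ (p n w) x) - g (Φ (p n w) x)| ≤ (T x + δ) * N := by
    intro w
    by_cases hw : w ∈ V
    swap
    · exact ⟨1, 0, 0, fun h => absurd h hw⟩
    obtain ⟨r, hr⟩ := dense_future hK.fl hK.filt hs₀ hK.gen (hF w hw) (hFb w hw) hη0
    obtain ⟨g, hg, hge⟩ := exists_CE (cm_le hK.fl hK.filt r) (hF w hw) (hFb w hw) (μ := μ)
    have hgm : Measurable g := hg.1.mono (cm_le hK.fl hK.filt r) le_rfl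
    obtain ⟨T, hTi, hT0, hTint, hT⟩ := good_int (hgood w hw) (fun n => hK.fl _)
      (h := fun x => |F w x - g x|) ((hF w hw).sub hgm).abs (fun x => abs_nonneg _) (C := 2)
      (fun x => (abs_sub _ _).trans (by linarith [hFb w hw x, hg.2.1 x]))
    refine ⟨r, g, T, fun _ => ⟨hg.1, hg.2.1, fun hV => van_CE (cm_le hK.fl hK.filt r)
      (base_le hK.base r) (hF w hw) (hFb w hw) hg hV, hTi, hT0, ?_, hT⟩⟩
    refine hTint.trans (le_trans (le_of_eq ?_) hr)
    apply integral_congr_ae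
    filter_upwards [hge] with x hx
    rw [hx]
  choose r g T hall using happ
  obtain ⟨R, hR⟩ : ∃ R : G, ∀ w ∈ V, ℓ (r w) ≤ ℓ R := by
    have h1 : ∀ w ∈ V, ∀ᶠ n : ℕ in atTop, ℓ (r w) ≤ ℓ (s₀ ^ n) := by
      intro w _
      have h2 : Tendsto (fun n : ℕ => (n : ℝ) * ℓ s₀) atTop atTop :=
        tendsto_natCast_atTop_atTop.atTop_mul_const hs₀
      filter_upwards [h2.eventually_ge_atTop (ℓ (r w))] with n hn
      rw [hK.filt.pow]
      exact hn
    obtain ⟨n, hn⟩ := ((Finset.eventually_all V).2 h1).exists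
    exact ⟨s₀ ^ n, hn⟩
  refine ⟨_, fun x => ∑ w ∈ V, T w x, ww_level hK hs₀ hv hc hp hdiff (hgood v hv)
    (F := g) (r := R) (fun w hw => ⟨(hall w hw).1.mono (cm_mono hK.filt (hR w hw)) le_rfl,
      (hall w hw).2.1⟩) ((hall v hv).2.2.1 hVan) hW, ?_, ?_, ?_, ?_⟩
  · exact integrable_finsetSum _ fun w hw => (hall w hw).2.2.2.1
  · have h1 : ∀ᵐ x ∂μ, ∀ w ∈ V, 0 ≤ T w x := by
      rw [Filter.eventually_all_finset]
      intro w hw
      exact (hall w hw).2.2.2.2.1
    filter_upwards [h1] with x hx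
    exact Finset.sum_nonneg hx
  · rw [integral_finsetSum _ fun w hw => (hall w hw).2.2.2.1]
    refine (Finset.sum_le_sum fun w hw => (hall w hw).2.2.2.2.2.1).trans ?_
    rw [Finset.sum_const, nsmul_eq_mul, hη, mul_div_assoc', div_le_iff₀ (by positivity)]
    nlinarith
  · have h1 : ∀ᵐ x ∂μ, ∀ w ∈ V, ∀ δ : ℝ, 0 < δ → ∀ᶠ N : ℕ in atTop,
        ∑ n ∈ Finset.range N, |F w (Φ (p n w) x) - g w (Φ (p n w) x)| ≤ (T w x + δ) * N := by
      rw [Filter.eventually_all_finset]
      intro w hw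
      exact (hall w hw).2.2.2.2.2.2
    filter_upwards [h1] with x hx δ hδ
    have h2 : ∀ w ∈ V, ∀ᶠ N : ℕ in atTop, ∑ n ∈ Finset.range N,
        |F w (Φ (p n w) x) - g w (Φ (p n w) x)| ≤ (T w x + δ / (V.card + 1)) * N :=
      fun w hw => hx w hw _ (by positivity)
    filter_upwards [(Finset.eventually_all V).2 h2] with N hN
    have h3 : ∀ n, |(∏ w ∈ V, F w (Φ (p n w) x)) * W n x -
        (∏ w ∈ V, g w (Φ (p n w) x)) * W n x| ≤
        ∑ w ∈ V, |F w (Φ (p n w) x) - g w (Φ (p n w) x)| := by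
      intro n
      rw [← sub_mul, abs_mul]
      have h4 := prod_diff V (a := fun w => F w (Φ (p n w) x)) (b := fun w => g w (Φ (p n w) x))
        (fun w hw => hFb w hw _) (fun w hw => (hall w hw).2.1 _)
      calc _ ≤ |∏ w ∈ V, F w (Φ (p n w) x) - ∏ w ∈ V, g w (Φ (p n w) x)| * 1 :=
            mul_le_mul_of_nonneg_left ((hW n).2 x) (abs_nonneg _)
        _ ≤ _ := by rw [mul_one]; exact h4
    refine (Finset.sum_le_sum fun n _ => h3 n).trans ?_
    rw [Finset.sum_comm]
    refine (Finset.sum_le_sum fun w hw => hN w hw).trans ?_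
    rw [← Finset.sum_mul, Finset.sum_add_distrib]
    refine mul_le_mul_of_nonneg_right (add_le_add_right ?_ _) (Nat.cast_nonneg N)
    rw [Finset.sum_const, nsmul_eq_mul, mul_div_assoc', div_le_iff₀ (by positivity)]
    nlinarith

end Pool.Agent.W5h42.KW
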