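import Pool.Agent.W5h42.KW.Seq

/-!
# Deterministic weights
-/

set_option autoImplicit false
set_option linter.unusedSectionVars false

open MeasureTheory Filter Topology

noncomputable section

namespace Pool.Agent.W5h42.KW

section det

variable {E F : Type*} [NormedAddCommGroup E] [NormedAddCommGroup F]

theorem Det.map {w : ℕ → E} (hw : Det w) {g : E → F} (hg : ∀ x y, ‖g x - g y‖ ≤ ‖x - y‖) :
    Det fun n => g (w n) := by
  intro ε hε
  obtain ⟨L, M, hL, hM, W, c, h⟩ := hw ε hε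
  refine ⟨L, M, hL, hM, fun i n => g (W i n), c, ?_⟩
  filter_upwards [h] with N hN
  exact (Finset.sum_le_sum fun n _ => hg _ _).trans hN

end det

variable {X : Type*} {mX : MeasurableSpace X} {μ : Measure X} [IsProbabilityMeasure μ]

theorem union_bound {D : ℕ → X → ℝ} {K κ : ℝ} (hκ : 0 < κ) (hD : ExpBd μ D K κ)
    {ε : ℝ} (hε : 0 < ε) {L M : ℕ} (hL : 0 < L) (hM : (M : ℝ) ≤ Real.exp (κ * ε ^ 2 / 2 * L))
    (W : Fin M → ℕ → ℝ) (hW : ∀ i n, |W i n| ≤ 1) :
    ∀ᵐ x ∂μ, ∀ᶠ m : ℕ in atTop, ∀ c : ℕ → Fin M,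
      |∑ n ∈ Finset.range (m * L), W (c (n / L)) (n % L) * D n x| ≤ ε * (m * L : ℕ) := by
  classical
  have hL' : (0 : ℝ) < L := by exact_mod_cast hL
  let a : (m : ℕ) → (Fin m → Fin M) → ℕ → ℝ := fun m c n =>
    if h : n / L < m then W (c ⟨n / L, h⟩) (n % L) else 0
  have ha : ∀ m c n, |a m c n| ≤ 1 := by
    intro m c n
    simp only [a]
    split_ifs
    · exact hW _ _
    · simp
  let bad : ℕ → Set X := fun m => ⋃ c ∈ (Finset.univ : Finset (Fin m → Fin M)),
    {x | ε * (m * L : ℕ) ≤ |∑ n ∈ Finset.range (m * L), a m c n * D n x|}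
  have hq : Real.exp (-(κ * ε ^ 2 / 2 * L)) < 1 := by
    rw [Real.exp_lt_one_iff]
    have : 0 < κ * ε ^ 2 / 2 * L := by positivity
    linarith
  have hbad : ∀ m : ℕ, 0 < m → μ.real (bad m) ≤
      |K| * Real.exp (-(κ * ε ^ 2 / 2 * L)) ^ m := by
    intro m hm
    have hm' : (0 : ℝ) < m := by exact_mod_cast hm
    refine (measureReal_biUnion_finset_le _ _).trans ?_
    have h1 : ∀ c ∈ (Finset.univ : Finset (Fin m → Fin M)),
        μ.real {x | ε * (m * L : ℕ) ≤ |∑ n ∈ Finset.range (m * L), a m c n * D n x|} ≤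
        |K| * Real.exp (-(κ * ε ^ 2 * L)) ^ m := by
      intro c _
      refine (hD (a m c) (ha m c) (m * L) (Nat.mul_pos hm hL) (ε * (m * L : ℕ))
        (by positivity)).trans ?_
      refine (mul_le_mul_of_nonneg_right (le_abs_self K) (Real.exp_pos _).le).trans ?_
      refine mul_le_mul_of_nonneg_left (le_of_eq ?_) (abs_nonneg K)
      rw [← Real.exp_nat_mul]
      congr 1
      push_cast
      field_simp
    refine (Finset.sum_le_sum h1).trans ?_
    rw [Finset.sum_const, nsmul_eq_mul, Finset.card_univ, Fintype.card_fun, Fintype.card_fin,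
      Fintype.card_fin]
    push_cast
    have h2 : (M : ℝ) ^ m ≤ Real.exp (κ * ε ^ 2 / 2 * L) ^ m :=
      pow_le_pow_left₀ (Nat.cast_nonneg M) hM m
    calc (M : ℝ) ^ m * (|K| * Real.exp (-(κ * ε ^ 2 * L)) ^ m) ≤
        Real.exp (κ * ε ^ 2 / 2 * L) ^ m * (|K| * Real.exp (-(κ * ε ^ 2 * L)) ^ m) :=
          mul_le_mul_of_nonneg_right h2 (by positivity)
      _ = |K| * Real.exp (-(κ * ε ^ 2 / 2 * L)) ^ m := by
          rw [mul_left_comm, ← mul_pow, ← Real.exp_add]
          congr 3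
          ring
  have hsummable : Summable fun m : ℕ => |K| * Real.exp (-(κ * ε ^ 2 / 2 * L)) ^ m :=
    (summable_geometric_of_lt_one (Real.exp_pos _).le hq).mul_left _
  have hfin : ∑' m, μ (bad (m + 1)) ≠ ⊤ := by
    have h3 : ∀ m, μ (bad (m + 1)) ≤
        ENNReal.ofReal (|K| * Real.exp (-(κ * ε ^ 2 / 2 * L)) ^ (m + 1)) := by
      intro m
      have h4 := hbad (m + 1) m.succ_pos
      rw [measureReal_def] at h4
      rw [← ENNReal.ofReal_toReal (measure_ne_top μ (bad (m + 1)))]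
      exact ENNReal.ofReal_le_ofReal h4
    refine ne_top_of_le_ne_top ?_ (ENNReal.tsum_le_tsum h3)
    exact ((summable_nat_add_iff 1).2 hsummable).tsum_ofReal_ne_top
  filter_upwards [ae_eventually_notMem hfin] with x hx
  obtain ⟨M₀, hM₀⟩ := eventually_atTop.1 hx
  refine eventually_atTop.2 ⟨M₀ + 1, fun m' hm' c => ?_⟩
  obtain ⟨m, rfl⟩ : ∃ m, m' = m + 1 := ⟨m' - 1, by omega⟩
  have hm := hM₀ m (by omega)
  by_contra hcon
  rw [not_le] at hcon
  apply hm
  refine Set.mem_biUnion (Finset.mem_coe.2 (Finset.mem_univ fun i : Fin (m + 1) => c i)) ?_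
  have e : ∑ n ∈ Finset.range ((m + 1) * L), a (m + 1) (fun i => c i) n * D n x =
      ∑ n ∈ Finset.range ((m + 1) * L), W (c (n / L)) (n % L) * D n x := by
    refine Finset.sum_congr rfl fun n hn => ?_
    have h5 : n / L < m + 1 := Nat.div_lt_of_lt_mul (by
      rw [mul_comm]
      exact Finset.mem_range.1 hn)
    simp only [a, dif_pos h5]
  show ε * ((m + 1) * L : ℕ) ≤ _
  rw [e]
  exact hcon.le

/-- the point `k / Q - 1` of the grid -/
def gr (Q : ℕ) (k : Fin (2 * Q + 1)) : ℝ := (k : ℝ) / Q - 1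

theorem gr_abs {Q : ℕ} (hQ : 0 < Q) (k : Fin (2 * Q + 1)) : |gr Q k| ≤ 1 := by
  have hQ' : (0 : ℝ) < Q := by exact_mod_cast hQ
  have h1 : (k : ℝ) ≤ 2 * Q := by
    have := k.2
    exact_mod_cast Nat.lt_succ_iff.1 this
  have h2 : (k : ℝ) / Q ≤ 2 := by
    rw [div_le_iff₀ hQ']
    exact h1
  have h3 : 0 ≤ (k : ℝ) / Q := by positivity
  unfold gr
  rw [abs_le]
  constructor <;> linarith

theorem exists_gr {Q : ℕ} (hQ : 0 < Q) {y : ℝ} (hy : |y| ≤ 1) :
    ∃ k : Fin (2 * Q + 1), |y - gr Q k| ≤ 1 / Q := by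
  have hQ' : (0 : ℝ) < Q := by exact_mod_cast hQ
  obtain ⟨h1, h2⟩ := abs_le.1 hy
  have h0 : 0 ≤ (y + 1) * Q := mul_nonneg (by linarith) hQ'.le
  have h3 : ⌊(y + 1) * Q⌋₊ < 2 * Q + 1 := by
    rw [Nat.lt_succ_iff]
    have : (y + 1) * Q ≤ ((2 * Q : ℕ) : ℝ) := by
      push_cast
      nlinarith
    calc ⌊(y + 1) * Q⌋₊ ≤ ⌊((2 * Q : ℕ) : ℝ)⌋₊ := Nat.floor_mono this
      _ = 2 * Q := Nat.floor_natCast _
  refine ⟨⟨_, h3⟩, ?_⟩
  have h4 := Nat.floor_le h0
  have h5 := Nat.lt_floor_add_one ((y + 1) * Q)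
  have e : y - gr Q ⟨_, h3⟩ = ((y + 1) * Q - ⌊(y + 1) * Q⌋₊) / Q := by
    unfold gr
    field_simp
    ring
  rw [e, abs_div, abs_of_pos hQ']
  apply div_le_div_of_nonneg_right _ hQ'.le
  rw [abs_le]
  constructor <;> linarith

/-- Real processes whose averages tend to zero with all deterministic weights. -/
def WW (μ : Measure X) (P : ℕ → X → ℝ) : Prop :=
  ∀ᵐ x ∂μ, ∀ w : ℕ → ℝ, (∀ n, |w n| ≤ 1) → Det w →
    Tendsto (fun N : ℕ => (∑ n ∈ Finset.range N, w n * P n x) / N) atTop (𝓝 0)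

/-- truncation to `[-1, 1]` -/
def clp (y : ℝ) : ℝ := max (-1) (min 1 y)

theorem clp_abs (y : ℝ) : |clp y| ≤ 1 :=
  abs_le.2 ⟨le_max_left _ _, max_le (by norm_num) (min_le_left _ _)⟩

theorem clp_near {w y : ℝ} (hw : |w| ≤ 1) : |w - clp y| ≤ |w - y| := by
  obtain ⟨h1, h2⟩ := abs_le.1 hw
  unfold clp
  rcases le_total 1 y with h | h
  · rw [min_eq_left h, max_eq_right (by norm_num), abs_of_nonpos (by linarith),
      abs_of_nonpos (by linarith)]
    linarith
  · rw [min_eq_right h]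
    rcases le_total y (-1) with h' | h'
    · rw [max_eq_left h', abs_of_nonneg (by linarith), abs_of_nonneg (by linarith)]
      linarith
    · rw [max_eq_right h']

theorem ww_of_expBd {D : ℕ → X → ℝ} {K κ : ℝ} (hκ : 0 < κ) (hD : ExpBd μ D K κ)
    {C : ℝ} (hC : 0 < C) (hb : ∀ n x, |D n x| ≤ C) : WW μ D := by
  have hall : ∀ᵐ x ∂μ, ∀ (L M Q i : ℕ) (W : Fin M → Fin L → Fin (2 * Q + 1)), 0 < L → 0 < Q →
      (M : ℝ) ≤ Real.exp (κ * (1 / ((i : ℝ) + 1)) ^ 2 / 2 * L) →
      ∀ᶠ m : ℕ in atTop, ∀ c : ℕ → Fin M, |∑ n ∈ Finset.range (m * L),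
        (if h : n % L < L then gr Q (W (c (n / L)) ⟨n % L, h⟩) else 0) * D n x| ≤
          1 / ((i : ℝ) + 1) * (m * L : ℕ) := by
    rw [ae_all_iff]
    intro L
    rw [ae_all_iff]
    intro M
    rw [ae_all_iff]
    intro Q
    rw [ae_all_iff]
    intro i
    rw [ae_all_iff]
    intro W
    by_cases hL : 0 < L
    swap
    · exact Eventually.of_forall fun x h => absurd h hL
    by_cases hQ : 0 < Q
    swap
    · exact Eventually.of_forall fun x _ h => absurd h hQ
    by_cases hM : (M : ℝ) ≤ Real.exp (κ * (1 / ((i : ℝ) + 1)) ^ 2 / 2 * L)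
    swap
    · exact Eventually.of_forall fun x _ _ h => absurd h hM
    have h1 := union_bound hκ hD (ε := 1 / ((i : ℝ) + 1)) (by positivity) hL hM
      (fun j n => if h : n < L then gr Q (W j ⟨n, h⟩) else 0) (fun j n => by
        split_ifs
        · exact gr_abs hQ _
        · simp)
    filter_upwards [h1] with x hx _ _ _
    exact hx
  filter_upwards [hall] with x hx w hw hdet
  rw [Metric.tendsto_nhds]
  intro ε hε
  -- parameters
  obtain ⟨i, hi⟩ := exists_nat_one_div_lt (show (0 : ℝ) < ε / 5 by positivity)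
  set ε₁ : ℝ := 1 / ((i : ℝ) + 1) with hε₁
  have hε₁0 : 0 < ε₁ := by positivity
  set η : ℝ := min (κ * ε₁ ^ 2 / 2) (ε / (5 * C)) with hη
  have hη0 : 0 < η := lt_min (by positivity) (by positivity)
  obtain ⟨L, M, hL, hM, W, c, hWc⟩ := hdet η hη0
  have hL' : (0 : ℝ) < L := by exact_mod_cast hL
  obtain ⟨Q₀, hQ₀⟩ := exists_nat_one_div_lt (show (0 : ℝ) < ε / (5 * C) by positivity)
  set Q : ℕ := Q₀ + 1 with hQ
  have hQpos : 0 < Q := Nat.succ_pos _
  have hQ1 : (1 : ℝ) / Q < ε / (5 * C) := by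
    rw [hQ]
    push_cast
    exact hQ₀
  choose g hg using fun (j : Fin M) (l : Fin L) => exists_gr hQpos (clp_abs (W j l))
  have hM' : (M : ℝ) ≤ Real.exp (κ * ε₁ ^ 2 / 2 * L) := by
    refine hM.trans (Real.exp_le_exp.2 ?_)
    exact mul_le_mul_of_nonneg_right (min_le_left _ _) hL'.le
  have hev := hx L M Q i g hL hQpos hM'
  obtain ⟨m₀, hm₀⟩ := eventually_atTop.1 hev
  set a : ℕ → ℝ := fun n => if h : n % L < L then gr Q (g (c (n / L)) ⟨n % L, h⟩) else 0 with ha
  have hwa : ∀ n, |w n - a n| ≤ |w n - W (c (n / L)) (n % L)| + 1 / Q := by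
    intro n
    have h : n % L < L := Nat.mod_lt _ hL
    have e : a n = gr Q (g (c (n / L)) ⟨n % L, h⟩) := by
      rw [ha]
      simp only [dif_pos h]
    rw [e]
    have h1 := hg (c (n / L)) ⟨n % L, h⟩
    have h2 := clp_near (y := W (c (n / L)) (n % L)) (hw n)
    calc |w n - gr Q (g (c (n / L)) ⟨n % L, h⟩)| =
        |(w n - clp (W (c (n / L)) (n % L))) +
          (clp (W (c (n / L)) (n % L)) - gr Q (g (c (n / L)) ⟨n % L, h⟩))| := by
          congr 1
          ring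
      _ ≤ |w n - clp (W (c (n / L)) (n % L))| +
          |clp (W (c (n / L)) (n % L)) - gr Q (g (c (n / L)) ⟨n % L, h⟩)| := abs_add_le _ _
      _ ≤ _ := add_le_add h2 h1
  have ha1 : ∀ n, |a n| ≤ 1 := by
    intro n
    rw [ha]
    simp only
    split_ifs
    · exact gr_abs hQpos _
    · simp
  have hlarge : ∀ᶠ N : ℕ in atTop, C * L ≤ ε / 5 * N := by
    have : Tendsto (fun N : ℕ => ε / 5 * (N : ℝ)) atTop atTop :=
      tendsto_natCast_atTop_atTop.const_mul_atTop (by positivity)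
    exact this.eventually_ge_atTop _
  filter_upwards [hWc, hlarge, eventually_ge_atTop (m₀ * L + L), eventually_gt_atTop 0] with
    N hN1 hN2 hN3 hN4
  have hN4' : (0 : ℝ) < N := by exact_mod_cast hN4
  rw [Real.dist_eq, sub_zero, abs_div, Nat.abs_cast, div_lt_iff₀ hN4']
  -- the three parts
  set m : ℕ := N / L with hm
  have hmN : m * L ≤ N := Nat.div_mul_le_self N L
  have hNm : N < m * L + L := by
    have h1 := Nat.lt_div_mul_add hL (a := N)
    rw [hm]
    exact h1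
  have hmm₀ : m₀ ≤ m := by
    rw [hm, Nat.le_div_iff_mul_le hL]
    omega
  have p1 : |∑ n ∈ Finset.range N, (w n - a n) * D n x| ≤ C * (η * N + N * (1 / Q)) := by
    refine (Finset.abs_sum_le_sum_abs _ _).trans ?_
    calc ∑ n ∈ Finset.range N, |(w n - a n) * D n x| ≤
        ∑ n ∈ Finset.range N, C * (|w n - W (c (n / L)) (n % L)| + 1 / Q) := by
          refine Finset.sum_le_sum fun n _ => ?_
          rw [abs_mul, mul_comm C]
          exact mul_le_mul (hwa n) (hb n x) (abs_nonneg _)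
            (add_nonneg (abs_nonneg _) (by positivity))
      _ = C * (∑ n ∈ Finset.range N, |w n - W (c (n / L)) (n % L)| + N * (1 / Q)) := by
          rw [← Finset.mul_sum, Finset.sum_add_distrib, Finset.sum_const, Finset.card_range,
            nsmul_eq_mul]
      _ ≤ _ := mul_le_mul_of_nonneg_left (add_le_add_left hN1 _) hC.le
  have p2 : |∑ n ∈ Finset.range (m * L), a n * D n x| ≤ ε₁ * (m * L : ℕ) := hm₀ m hmm₀ c
  have p3 : |∑ n ∈ Finset.Ico (m * L) N, a n * D n x| ≤ L * C := by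
    refine (Finset.abs_sum_le_sum_abs _ _).trans ?_
    refine (Finset.sum_le_sum (g := fun _ => C) fun n _ => ?_).trans ?_
    · rw [abs_mul]
      calc |a n| * |D n x| ≤ 1 * C := mul_le_mul (ha1 n) (hb n x) (abs_nonneg _) zero_le_one
        _ = C := one_mul C
    · rw [Finset.sum_const, Nat.card_Ico, nsmul_eq_mul]
      refine mul_le_mul_of_nonneg_right ?_ hC.le
      have : N - m * L ≤ L := by omega
      exact_mod_cast this
  have e : ∑ n ∈ Finset.range N, w n * D n x = ∑ n ∈ Finset.range N, (w n - a n) * D n x +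
      (∑ n ∈ Finset.range (m * L), a n * D n x + ∑ n ∈ Finset.Ico (m * L) N, a n * D n x) := by
    rw [Finset.sum_range_add_sum_Ico _ hmN, ← Finset.sum_add_distrib]
    refine Finset.sum_congr rfl fun n _ => ?_
    ring
  rw [e]
  have q1 : C * (η * N + N * (1 / Q)) ≤ ε / 5 * N + ε / 5 * N := by
    have h1 : C * η ≤ ε / 5 := by
      calc C * η ≤ C * (ε / (5 * C)) := mul_le_mul_of_nonneg_left (min_le_right _ _) hC.le
        _ = ε / 5 := by field_simp
    have h2 : C * (1 / Q) ≤ ε / 5 := by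
      calc C * (1 / Q) ≤ C * (ε / (5 * C)) := mul_le_mul_of_nonneg_left hQ1.le hC.le
        _ = ε / 5 := by field_simp
    calc C * (η * N + N * (1 / Q)) = (C * η) * N + (C * (1 / Q)) * N := by ring
      _ ≤ _ := add_le_add (mul_le_mul_of_nonneg_right h1 hN4'.le)
          (mul_le_mul_of_nonneg_right h2 hN4'.le)
  have q2 : ε₁ * (m * L : ℕ) ≤ ε / 5 * N := by
    have h1 : ((m * L : ℕ) : ℝ) ≤ N := by exact_mod_cast hmN
    exact mul_le_mul hi.le h1 (Nat.cast_nonneg _) (by positivity)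
  calc |∑ n ∈ Finset.range N, (w n - a n) * D n x +
      (∑ n ∈ Finset.range (m * L), a n * D n x + ∑ n ∈ Finset.Ico (m * L) N, a n * D n x)| ≤
      |∑ n ∈ Finset.range N, (w n - a n) * D n x| +
      (|∑ n ∈ Finset.range (m * L), a n * D n x| + |∑ n ∈ Finset.Ico (m * L) N, a n * D n x|) :=
        (abs_add_le _ _).trans (add_le_add_right (abs_add_le _ _) _)
    _ < ε * N := by
        have : 0 < ε / 5 * N := by positivity
        linarith

end Pool.Agent.W5h42.KW
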